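import Pool.Agent.J4.H76.SG.Shr
import Pool.Agent.TH676.Z.FacesG
import Pool.Agent.TH676.Z.Dim

set_option autoImplicit false
set_option linter.unusedSectionVars false

/-! # Counting -/

namespace Pool.Agent.J4.H76.SG

open Finset Pool.Agent.TH676.Z MacConx MacDelx Pool.Agent.Y358.IN

variable {X D : Type} [Fintype X] [DecidableEq X] [Fintype D] [DecidableEq D]

theorem mac_indep {a b : D → X} {F : Finset D} {h : ℕ} (hM : Mac h a b F) :
    ∃ (r : ℕ) (K : Fin r → D → ZMod 2), (∀ i, K i ∈ ZF a b F) ∧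
      (∀ e, (univ.filter (fun i => K i e ≠ 0)).card ≤ 2) ∧ LinearIndependent (ZMod 2) K ∧
      Module.finrank (ZMod 2) (ZF a b F) ≤ r + h := by
  classical
  obtain ⟨k, K, h1, h2, h3⟩ := hM
  obtain ⟨κ, f, hf, hspan, hli⟩ := exists_linearIndependent' (ZMod 2) K
  haveI : Finite κ := Finite.of_injective f hf
  haveI := Fintype.ofFinite κ
  have hcard : Module.finrank (ZMod 2) (Submodule.span (ZMod 2) (Set.range K)) =
      Fintype.card κ := by
    rw [← hspan]
    exact finrank_span_eq_card hli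
  let q := (Fintype.equivFin κ).symm
  refine ⟨Fintype.card κ, K ∘ f ∘ q, fun i => h1 _, fun e => ?_, ?_, ?_⟩
  · refine le_trans ?_ (h2 e)
    refine card_le_card_of_injOn (f ∘ q) ?_ ((hf.comp q.injective).injOn)
    intro j hj
    have hj' := (mem_filter.1 (mem_coe.1 hj)).2
    exact mem_coe.2 (mem_filter.2 ⟨mem_univ _, hj'⟩)
  · exact hli.comp q q.injective
  · rw [← hcard]; exact h3

variable {V E : Type} [Fintype V] [DecidableEq V] [Fintype E] [DecidableEq E]
variable {src dst : E → V} {T : Finset V} {h : ℕ} {a b : D → X} {F : Finset D} {L : X → Finset V}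

theorem union_cl (hR : MinRep src dst T (Adj src dst) h a b F L) {x y : X} (hL : L x = L y) :
    ∀ u ∈ L x ∪ L y, ∀ v ∈ L x ∪ L y, u ≠ v → Adj src dst u v := by
  rw [← hL, union_self]
  exact hR.cl x

/-- the number of the members of the family -/
theorem facesM (hR : MinRep src dst T (Adj src dst) h a b F L)
    (tri : ∀ u v w, Adj src dst u v → Adj src dst v w → Adj src dst w u → False)
    (hNP : NoPar src dst) {g : ℕ}
    (hg : ∀ x ∈ ZF src dst (ES src dst T), x ≠ 0 → g ≤ (univ.filter (fun e => x e ≠ 0)).card)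
    {r : ℕ} {K : Fin r → D → ZMod 2} (hK : ∀ i, K i ∈ ZF a b F)
    (h2 : ∀ e, (univ.filter (fun i => K i e ≠ 0)).card ≤ 2) (hli : LinearIndependent (ZMod 2) K)
    (hr : Module.finrank (ZMod 2) (ZF a b F) ≤ r + h) (h1r : 1 ≤ r) :
    g * (r + 1) ≤ 2 * F.card := by
  classical
  have hspan : Module.finrank (ZMod 2) (Submodule.span (ZMod 2) (Set.range K)) = r := by
    rw [finrank_span_eq_card hli, Fintype.card_fin]
  have hr' : Module.finrank (ZMod 2) (ZF a b F) ≤
      Module.finrank (ZMod 2) (Submodule.span (ZMod 2) (Set.range K)) + h := by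
    rw [hspan]; exact hr
  set S : D → ZMod 2 := ∑ j, K j with hS
  have hSe : ∀ e, S e = ∑ j, K j e := fun e => by rw [hS, Finset.sum_apply]
  have hSZ : S ∈ ZF a b F := Submodule.sum_mem _ fun j _ => hK j
  have hS0 : S ≠ 0 := by
    intro h0
    have h1 := Fintype.linearIndependent_iff.mp hli (fun _ => 1) (by
      simpa using h0)
    exact one_ne_zero (h1 ⟨0, by omega⟩)
  have hlow1 : ∀ j, g ≤ (univ.filter (fun e => K j e ≠ 0)).card := by
    intro j
    by_contra hcon
    push Not at hcon
    obtain ⟨x, y, P, hxy, hL, hne, hP, hPz⟩ := short hR tri hNP hg (hK j) (hli.ne_zero j) hcon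
    exact hR.no_id hxy (union_cl hR hL) hne (hL ▸ hne) (mac_id_mem hxy hP hK h2 hr' j hPz)
  have hlow2 : g ≤ (univ.filter (fun e => S e ≠ 0)).card := by
    by_contra hcon
    push Not at hcon
    obtain ⟨x, y, P, hxy, hL, hne, hP, hPz⟩ := short hR tri hNP hg hSZ hS0 hcon
    refine hR.no_id hxy (union_cl hR hL) hne (hL ▸ hne)
      (mac_id_out hxy hP hK h2 hr' fun e he => ?_)
    have h3 := FacesGx.key (fun j => K j e) (h2 e)
    rw [← hSe e, if_pos (hPz e he)] at h3
    omega
  have hsum1 : r * g ≤ ∑ j : Fin r, (univ.filter (fun e => K j e ≠ 0)).card := by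
    have := Finset.card_nsmul_le_sum (univ : Finset (Fin r))
      (fun j => (univ.filter (fun e => K j e ≠ 0)).card) g (fun j _ => hlow1 j)
    simpa using this
  have hswap : ∑ j : Fin r, (univ.filter (fun e => K j e ≠ 0)).card =
      ∑ e : D, (univ.filter (fun j : Fin r => K j e ≠ 0)).card := by
    simp only [Finset.card_filter]
    exact Finset.sum_comm
  have hup : ∀ e : D, (univ.filter (fun j : Fin r => K j e ≠ 0)).card +
      (if S e ≠ 0 then 1 else 0) ≤ if e ∈ F then 2 else 0 := by
    intro e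
    by_cases he : e ∈ F
    · rw [if_pos he]
      have := FacesGx.key (fun j => K j e) (h2 e)
      rw [← hSe e] at this
      exact this
    · rw [if_neg he]
      have h0 : ∀ i, K i e = 0 := fun i => (hK i).1 e he
      have hSe0 : S e = 0 := hSZ.1 e he
      simp [h0, hSe0]
  have htot : ∑ e : D, ((univ.filter (fun j : Fin r => K j e ≠ 0)).card +
      (if S e ≠ 0 then 1 else 0)) ≤ ∑ e : D, (if e ∈ F then 2 else 0) :=
    Finset.sum_le_sum fun e _ => hup e
  rw [Finset.sum_add_distrib, ← hswap] at htot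
  have hSc : ∑ e : D, (if S e ≠ 0 then 1 else 0) = (univ.filter (fun e => S e ≠ 0)).card := by
    rw [Finset.card_filter]
  have hFc : ∑ e : D, (if e ∈ F then 2 else 0) = 2 * F.card := by
    rw [← Finset.sum_filter]
    simp [Finset.filter_mem_eq_inter, mul_comm]
  rw [hSc, hFc] at htot
  calc g * (r + 1) = r * g + g := by ring
    _ ≤ _ := Nat.add_le_add hsum1 hlow2
    _ ≤ _ := htot

/-- a connected graph with `n` vertices has at least `n - 1` edges -/
theorem con_card {A : Finset X} (hA : Con a b F A) (hne : A.Nonempty) :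
    A.card ≤ (F.filter (fun e => a e ∈ A ∧ b e ∈ A)).card + 1 := by
  classical
  obtain ⟨x0, hx0⟩ := hne
  set C : Finset (Finset X) := A.powerset.filter (fun B => B.Nonempty ∧
    B.card ≤ (F.filter (fun e => a e ∈ B ∧ b e ∈ B)).card + 1) with hC
  have hCne : C.Nonempty := by
    refine ⟨{x0}, ?_⟩
    rw [hC, mem_filter, mem_powerset]
    refine ⟨singleton_subset_iff.2 hx0, singleton_nonempty _, ?_⟩
    rw [card_singleton]
    omega
  obtain ⟨B, hB, hmax⟩ := C.exists_max_image card hCne
  rw [hC, mem_filter, mem_powerset] at hB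
  obtain ⟨hBA, hBn, hBc⟩ := hB
  have key : ∀ y ∈ A, y ∉ B → ∀ e ∈ F, ((a e ∈ B ∧ b e = y) ∨ (b e ∈ B ∧ a e = y)) → False := by
    intro y hy hyB e he hey
    have hB' : insert y B ∈ C := by
      rw [hC, mem_filter, mem_powerset]
      refine ⟨insert_subset hy hBA, insert_nonempty _ _, ?_⟩
      rw [card_insert_of_notMem hyB]
      have hlt : (F.filter (fun e => a e ∈ B ∧ b e ∈ B)).card <
          (F.filter (fun e => a e ∈ insert y B ∧ b e ∈ insert y B)).card := by
        refine card_lt_card ⟨?_, ?_⟩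
        · intro d hd
          obtain ⟨h1, h2, h3⟩ := mem_filter.1 hd
          exact mem_filter.2 ⟨h1, mem_insert_of_mem h2, mem_insert_of_mem h3⟩
        · intro hsub
          have h1 : e ∈ F.filter (fun e => a e ∈ insert y B ∧ b e ∈ insert y B) := by
            rw [mem_filter]
            rcases hey with ⟨h1, h2⟩ | ⟨h1, h2⟩
            · exact ⟨he, mem_insert_of_mem h1, h2 ▸ mem_insert_self _ _⟩
            · exact ⟨he, h2 ▸ mem_insert_self _ _, mem_insert_of_mem h1⟩
          obtain ⟨_, h2, h3⟩ := mem_filter.1 (hsub h1)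
          rcases hey with ⟨_, h4⟩ | ⟨_, h4⟩
          · exact hyB (h4 ▸ h3)
          · exact hyB (h4 ▸ h2)
      omega
    have := hmax _ hB'
    rw [card_insert_of_notMem hyB] at this
    omega
  have hBeq : B = A := by
    refine hA B hBA hBn ?_ ?_
    · intro e he h1 h2
      by_contra h3
      exact key _ h2 h3 e he (Or.inl ⟨h1, rfl⟩)
    · intro e he h1 h2
      by_contra h3
      exact key _ h2 h3 e he (Or.inr ⟨h1, rfl⟩)
  rw [hBeq] at hBc
  exact hBc

/-- the vertices with two labels -/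
def X2 (L : X → Finset V) : Finset X := univ.filter (fun x => (L x).card = 2)

theorem mem_X2 {L : X → Finset V} {x : X} : x ∈ X2 L ↔ (L x).card = 2 := by simp [X2]

theorem lower (hR : MinRep src dst T (Adj src dst) h a b F L)
    (tri : ∀ u v w, Adj src dst u v → Adj src dst v w → Adj src dst w u → False) :
    2 * (X2 L).card ≤ F.card + (VS src dst T).card := by
  classical
  set U : Finset V := (X2 L).biUnion L with hU
  have hUV : U ⊆ VS src dst T := by
    intro u hu
    obtain ⟨x, hx, hux⟩ := mem_biUnion.1 hu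
    rw [mem_X2] at hx
    obtain ⟨v, hv⟩ : ((L x).erase u).Nonempty := by
      rw [← card_pos, card_erase_of_mem hux]; omega
    obtain ⟨hvu, hvx⟩ := mem_erase.1 hv
    unfold VS
    exact mem_filter.2 ⟨mem_univ _, hR.out x u hux, v, hR.cl x u hux v hvx hvu.symm⟩
  have h1 : ∑ u ∈ U, ((X2 L).filter (fun x => u ∈ L x)).card = 2 * (X2 L).card := by
    simp only [card_filter]
    rw [sum_comm]
    have : ∀ x ∈ X2 L, (∑ u ∈ U, if u ∈ L x then 1 else 0) = 2 := by
      intro x hx
      rw [← card_filter]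
      have h2 : U.filter (fun u => u ∈ L x) = L x := by
        ext u
        rw [mem_filter]
        exact ⟨fun h => h.2, fun h => ⟨mem_biUnion.2 ⟨x, hx, h⟩, h⟩⟩
      rw [h2]
      exact mem_X2.1 hx
    rw [sum_congr rfl this, sum_const, smul_eq_mul, mul_comm]
  have h2 : ∀ u ∈ U, ((X2 L).filter (fun x => u ∈ L x)).card ≤
      (F.filter (fun e => u ∈ L (a e) ∧ u ∈ L (b e))).card + 1 := by
    intro u hu
    obtain ⟨x, hx, hux⟩ := mem_biUnion.1 hu
    have h3 : (X2 L).filter (fun x => u ∈ L x) = Rg L u := by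
      refine hR.con u _ ?_ ⟨x, mem_filter.2 ⟨hx, hux⟩⟩ ?_ ?_
      · intro y hy
        exact mem_Rg.2 (mem_filter.1 hy).2
      · intro e he _ hb
        exact mem_filter.2 ⟨mem_X2.2 (end_two hR tri he).2, mem_Rg.1 hb⟩
      · intro e he _ hb
        exact mem_filter.2 ⟨mem_X2.2 (end_two hR tri he).1, mem_Rg.1 hb⟩
    rw [h3]
    refine (con_card (hR.con u) ⟨x, mem_Rg.2 hux⟩).trans (Nat.add_le_add_right ?_ 1)
    refine card_le_card fun e he => ?_
    obtain ⟨h4, h5, h6⟩ := mem_filter.1 he
    exact mem_filter.2 ⟨h4, mem_Rg.1 h5, mem_Rg.1 h6⟩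
  have h3 : ∑ u ∈ U, (F.filter (fun e => u ∈ L (a e) ∧ u ∈ L (b e))).card ≤ F.card := by
    rw [← card_biUnion]
    · refine card_le_card fun e he => ?_
      obtain ⟨u, _, hu⟩ := mem_biUnion.1 he
      exact (mem_filter.1 hu).1
    · intro u _ v _ huv
      change Disjoint (F.filter (fun e => u ∈ L (a e) ∧ u ∈ L (b e)))
        (F.filter (fun e => v ∈ L (a e) ∧ v ∈ L (b e)))
      rw [disjoint_left]
      intro e he he'
      obtain ⟨h4, h5, h6⟩ := mem_filter.1 he
      obtain ⟨_, h7, h8⟩ := mem_filter.1 he'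
      exact huv (uniq hR tri h4 h5 h6 h7 h8)
  have h4 := sum_le_sum h2
  rw [h1, sum_add_distrib, sum_const, smul_eq_mul, mul_one] at h4
  have h5 := card_le_card hUV
  omega

theorem dimX (hR : MinRep src dst T (Adj src dst) h a b F L)
    (tri : ∀ u v w, Adj src dst u v → Adj src dst v w → Adj src dst w u → False)
    (hne : (X2 L).Nonempty) :
    F.card + 1 ≤ Module.finrank (ZMod 2) (ZF a b F) + (X2 L).card :=
  dim X D a b F (X2 L) hne fun _ he =>
    ⟨mem_X2.2 (end_two hR tri he).1, mem_X2.2 (end_two hR tri he).2⟩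

theorem edX (hR : MinRep src dst T (Adj src dst) h a b F L)
    (tri : ∀ u v w, Adj src dst u v → Adj src dst v w → Adj src dst w u → False)
    (hNP : NoPar src dst) : (ES src dst T).card ≤ (X2 L).card := by
  classical
  have key := card_mul_le_card_mul (s := ES src dst T) (t := X2 L) (m := 1) (n := 1)
    (fun (e : E) (x : X) => L x = {src e, dst e}) ?_ ?_
  · omega
  · intro e he
    obtain ⟨h1, h2, h3⟩ := mem_ES.1 he
    obtain ⟨x, hx1, hx2⟩ := hR.ed e h1 h2 h3
    have hLx : L x = {src e, dst e} := by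
      refine (eq_of_subset_of_card_le ?_ ?_).symm
      · intro y hy
        rcases mem_insert.1 hy with rfl | hy
        · exact hx1
        · rw [mem_singleton.1 hy]; exact hx2
      · rw [card_pair h1]
        exact card_two hR tri x
    refine card_pos.2 ⟨x, ?_⟩
    rw [mem_bipartiteAbove]
    exact ⟨mem_X2.2 (by rw [hLx, card_pair h1]), hLx⟩
  · intro x _
    refine (card_le_card ?_).trans (one_edge (T := T) hNP (L x))
    intro e he
    rw [mem_bipartiteBelow] at he
    exact mem_filter.2 ⟨mem_univ _, he⟩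

/-- the numerical contradiction -/
theorem num {f z N n m t r k h : ℕ} (e1 : f + 1 ≤ z + N) (e2 : 2 * N ≤ f + n) (e3 : m ≤ N)
    (e4 : 1 ≤ r → 12 * (r + 1) ≤ 2 * f) (e5 : z ≤ r + h) (e6 : 3 * n ≤ 2 * m + t)
    (e7 : 63 * t ≤ k * (m + t)) (e8 : 189 ≤ m + t) (hk : k ≤ 18) (hkh : 7 * k + 6 * h ≤ 137) :
    False := by
  rcases Nat.eq_zero_or_pos r with hr | hr
  · clear e4
    interval_cases k <;> omega
  · have h7 := e4 hr
    clear e4
    interval_cases k <;> omega

end Pool.Agent.J4.H76.SG
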