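import Pool.Agent.J4.H76.SG.Id
import Pool.Agent.TH676.Z.Stm3
import Pool.Agent.Y358.IN.Ind

set_option autoImplicit false
set_option linter.unusedSectionVars false

/-! # Representations by connected sets of vertices of a host graph -/

namespace Pool.Agent.J4.H76.SG

open Finset Pool.Agent.TH676.Z MacConx MacDelx Pool.Agent.Y358.IN

variable {X D : Type} [Fintype X] [DecidableEq X] [Fintype D] [DecidableEq D]

/-- the graph with the vertices `A` and the edges of `F` with both ends in `A` is connected -/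
def Con (a b : D → X) (F : Finset D) (A : Finset X) : Prop :=
  ∀ B ⊆ A, B.Nonempty → (∀ e ∈ F, a e ∈ B → b e ∈ A → b e ∈ B) →
    (∀ e ∈ F, b e ∈ B → a e ∈ A → a e ∈ B) → B = A

theorem Con.ctr {a b : D → X} {F : Finset D} {A : Finset X} (h : Con a b F A) (x y : X) :
    Con (ctr x y ∘ a) (ctr x y ∘ b) F (A.image (ctr x y)) := by
  intro B hB hne h1 h2
  have h3 : A.filter (fun z => Pool.Agent.TH676.Z.ctr x y z ∈ B) = A := by
    refine h _ (filter_subset _ _) ?_ ?_ ?_
    · obtain ⟨z, hz⟩ := hne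
      obtain ⟨w, hw, hwz⟩ := mem_image.1 (hB hz)
      exact ⟨w, mem_filter.2 ⟨hw, hwz ▸ hz⟩⟩
    · intro e he hea heb
      exact mem_filter.2 ⟨heb, h1 e he (mem_filter.1 hea).2 (mem_image_of_mem _ heb)⟩
    · intro e he heb hea
      exact mem_filter.2 ⟨hea, h2 e he (mem_filter.1 heb).2 (mem_image_of_mem _ hea)⟩
  refine subset_antisymm hB ?_
  intro z hz
  obtain ⟨w, hw, rfl⟩ := mem_image.1 hz
  rw [← h3] at hw
  exact (mem_filter.1 hw).2

variable {V E : Type} [Fintype V] [DecidableEq V] [Fintype E] [DecidableEq E]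

/-- the vertices with label `u` -/
def Rg (L : X → Finset V) (u : V) : Finset X := univ.filter (fun x => u ∈ L x)

theorem mem_Rg {L : X → Finset V} {u : V} {x : X} : x ∈ Rg L u ↔ u ∈ L x := by
  simp [Rg]

/-- The graph `G - T` is represented by the host graph `a, b` with edge set `F` and the labels
`L`: two labels of one vertex are related by `Q`. -/
structure Rep (src dst : E → V) (T : Finset V) (Q : V → V → Prop) (h : ℕ) (a b : D → X)
    (F : Finset D) (L : X → Finset V) : Prop where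
  out : ∀ x, ∀ u ∈ L x, u ∉ T
  cl : ∀ x, ∀ u ∈ L x, ∀ v ∈ L x, u ≠ v → Q u v
  ed : ∀ e, src e ≠ dst e → src e ∉ T → dst e ∉ T → ∃ x, src e ∈ L x ∧ dst e ∈ L x
  con : ∀ u, Con a b F (Rg L u)
  mac : Mac h a b F

/-- the vertices with a label -/
def Lv (L : X → Finset V) : Finset X := univ.filter (fun x => (L x).Nonempty)

/-- the size of a representation -/
def mu (F : Finset D) (L : X → Finset V) : ℕ := (Lv L).card * (Fintype.card D + 1) + F.card

theorem mu_lt_of_live {F F' : Finset D} {L L' : X → Finset V} (h : (Lv L').card < (Lv L).card) :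
    mu F' L' < mu F L := by
  unfold mu
  have h1 : F'.card ≤ Fintype.card D := card_le_univ _
  nlinarith

theorem mu_erase {F : Finset D} {L : X → Finset V} {e : D} (he : e ∈ F) :
    mu (F.erase e) L < mu F L := by
  unfold mu
  have := card_erase_of_mem he
  have h2 : 0 < F.card := card_pos.2 ⟨e, he⟩
  omega

theorem Rep.del {src dst : E → V} {T : Finset V} {Q : V → V → Prop} {h : ℕ} {a b : D → X}
    {F : Finset D} {L : X → Finset V} (hR : Rep src dst T Q h a b F L) (e : D)
    (hc : ∀ u, Con a b (F.erase e) (Rg L u)) : Rep src dst T Q h a b (F.erase e) L :=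
  ⟨hR.out, hR.cl, hR.ed, hc, macDel X D a b F h e hR.mac⟩

/-- the labels after the identification of `x` and `y` -/
def idL (L : X → Finset V) (x y : X) (z : X) : Finset V :=
  if z = y then ∅ else if z = x then L x ∪ L y else L z

theorem mem_idL {L : X → Finset V} {x y : X} (hxy : x ≠ y) {z : X} {u : V} :
    u ∈ idL L x y z ↔ ∃ w, ctr x y w = z ∧ u ∈ L w := by
  unfold idL
  constructor
  · intro h
    split_ifs at h with h1 h2
    · exact absurd h (notMem_empty _)
    · subst h2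
      rcases mem_union.1 h with h | h
      · exact ⟨z, ctr_u _ _ hxy, h⟩
      · exact ⟨y, ctr_v _ _, h⟩
    · exact ⟨z, ctr_of_ne h1, h⟩
  · rintro ⟨w, hw, hu⟩
    by_cases hwy : w = y
    · rw [hwy, ctr_v] at hw
      rw [← hw, if_neg hxy, if_pos rfl]
      exact mem_union_right _ (hwy ▸ hu)
    · rw [ctr_of_ne hwy] at hw
      rw [← hw, if_neg hwy]
      by_cases hwx : w = x
      · rw [if_pos hwx]
        exact mem_union_left _ (hwx ▸ hu)
      · rw [if_neg hwx]
        exact hu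

theorem Rg_idL {L : X → Finset V} {x y : X} (hxy : x ≠ y) (u : V) :
    Rg (idL L x y) u = (Rg L u).image (ctr x y) := by
  ext z
  rw [mem_Rg, mem_idL hxy, mem_image]
  constructor
  · rintro ⟨w, hw, hu⟩
    exact ⟨w, mem_Rg.2 hu, hw⟩
  · rintro ⟨w, hw, hz⟩
    exact ⟨w, hz, mem_Rg.1 hw⟩

theorem live_idL {L : X → Finset V} {x y : X} (hxy : x ≠ y) (hx : (L x).Nonempty)
    (hy : (L y).Nonempty) : (Lv (idL L x y)).card < (Lv L).card := by
  have h1 : Lv (idL L x y) ⊆ (Lv L).erase y := by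
    intro z hz
    unfold Lv at hz
    obtain ⟨u, hu⟩ := (mem_filter.1 hz).2
    unfold idL at hu
    split_ifs at hu with h1 h2
    · exact absurd hu (notMem_empty _)
    · exact mem_erase.2 ⟨h1, mem_filter.2 ⟨mem_univ _, by rw [h2]; exact hx⟩⟩
    · exact mem_erase.2 ⟨h1, mem_filter.2 ⟨mem_univ _, ⟨u, hu⟩⟩⟩
  have h2 : y ∈ Lv L := mem_filter.2 ⟨mem_univ _, hy⟩
  exact (card_le_card h1).trans_lt (card_erase_lt_of_mem h2)

theorem Rep.idn {src dst : E → V} {T : Finset V} {Q : V → V → Prop} {h : ℕ} {a b : D → X}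
    {F : Finset D} {L : X → Finset V} (hR : Rep src dst T Q h a b F L) {x y : X} (hxy : x ≠ y)
    (hcl : ∀ u ∈ L x ∪ L y, ∀ v ∈ L x ∪ L y, u ≠ v → Q u v)
    (hM : Mac h (ctr x y ∘ a) (ctr x y ∘ b) F) :
    Rep src dst T Q h (ctr x y ∘ a) (ctr x y ∘ b) F (idL L x y) := by
  refine ⟨?_, ?_, ?_, ?_, hM⟩
  · intro z u hu
    obtain ⟨w, _, hw⟩ := (mem_idL hxy).1 hu
    exact hR.out w u hw
  · intro z u hu v hv huv
    unfold idL at hu hv
    split_ifs at hu hv with h1 h2
    · exact absurd hu (notMem_empty _)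
    · exact hcl u hu v hv huv
    · exact hR.cl z u hu v hv huv
  · intro e h1 h2 h3
    obtain ⟨z, hz1, hz2⟩ := hR.ed e h1 h2 h3
    exact ⟨ctr x y z, (mem_idL hxy).2 ⟨z, rfl, hz1⟩, (mem_idL hxy).2 ⟨z, rfl, hz2⟩⟩
  · intro u
    rw [Rg_idL hxy]
    exact (hR.con u).ctr x y

/-- a representation of smallest size -/
structure MinRep (src dst : E → V) (T : Finset V) (Q : V → V → Prop) (h : ℕ) (a b : D → X)
    (F : Finset D) (L : X → Finset V) : Prop extends Rep src dst T Q h a b F L where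
  min : ∀ (a' b' : D → X) (F' : Finset D) (L' : X → Finset V), Rep src dst T Q h a' b' F' L' →
    mu F L ≤ mu F' L'

theorem exists_min {src dst : E → V} {T : Finset V} {Q : V → V → Prop} {h : ℕ} {a b : D → X}
    {F : Finset D} {L : X → Finset V} (hR : Rep src dst T Q h a b F L) :
    ∃ (a' b' : D → X) (F' : Finset D) (L' : X → Finset V),
      MinRep src dst T Q h a' b' F' L' := by
  classical
  have hex : ∃ m, ∃ (a' b' : D → X) (F' : Finset D) (L' : X → Finset V),
      Rep src dst T Q h a' b' F' L' ∧ mu F' L' = m := ⟨_, a, b, F, L, hR, rfl⟩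
  obtain ⟨a', b', F', L', h1, h2⟩ := Nat.find_spec hex
  refine ⟨a', b', F', L', h1, ?_⟩
  intro a2 b2 F2 L2 h3
  by_contra h4
  push Not at h4
  rw [h2] at h4
  exact Nat.find_min hex h4 ⟨a2, b2, F2, L2, h3, rfl⟩

theorem MinRep.no_id {src dst : E → V} {T : Finset V} {Q : V → V → Prop} {h : ℕ} {a b : D → X}
    {F : Finset D} {L : X → Finset V} (hR : MinRep src dst T Q h a b F L) {x y : X}
    (hxy : x ≠ y) (hcl : ∀ u ∈ L x ∪ L y, ∀ v ∈ L x ∪ L y, u ≠ v → Q u v)
    (hx : (L x).Nonempty) (hy : (L y).Nonempty) :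
    ¬ Mac h (ctr x y ∘ a) (ctr x y ∘ b) F := by
  intro hM
  have h1 := hR.min _ _ _ _ (hR.toRep.idn hxy hcl hM)
  have h2 : mu F (idL L x y) < mu F L := mu_lt_of_live (live_idL hxy hx hy)
  omega

theorem MinRep.no_del {src dst : E → V} {T : Finset V} {Q : V → V → Prop} {h : ℕ} {a b : D → X}
    {F : Finset D} {L : X → Finset V} (hR : MinRep src dst T Q h a b F L) {e : D} (he : e ∈ F) :
    ¬ ∀ u, Con a b (F.erase e) (Rg L u) := by
  intro hc
  have h1 := hR.min _ _ _ _ (hR.toRep.del e hc)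
  have h2 : mu (F.erase e) L < mu F L := mu_erase he
  omega

end Pool.Agent.J4.H76.SG
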