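import Pool.Agent.J4.H76.SG.Grid
import Pool.Agent.J4.H76.SG.Pre

set_option autoImplicit false
set_option linter.unusedSectionVars false

/-! # Connected sets in the plane and connected sets of cells of a grid -/

namespace Pool.Agent.J4.H76.SG

open Finset Pool.Agent.TH676.Z

namespace Disc

open Grid

/-- the closed cell -/
def cell (N M : ℕ) {n : ℕ} (c : Fin n × Fin n) : Set (ℝ × ℝ) :=
  {p | ((c.1.val : ℝ) ≤ N * (p.1 + M) ∧ N * (p.1 + M) ≤ c.1.val + 1) ∧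
    ((c.2.val : ℝ) ≤ N * (p.2 + M) ∧ N * (p.2 + M) ≤ c.2.val + 1)}

theorem isClosed_cell (N M : ℕ) {n : ℕ} (c : Fin n × Fin n) : IsClosed (cell N M c) := by
  unfold cell
  refine IsClosed.and (IsClosed.and ?_ ?_) (IsClosed.and ?_ ?_)
  · exact isClosed_le continuous_const (by fun_prop)
  · exact isClosed_le (by fun_prop) continuous_const
  · exact isClosed_le continuous_const (by fun_prop)
  · exact isClosed_le (by fun_prop) continuous_const

open Classical in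
/-- the cells which meet a set -/
noncomputable def Cs (N M n : ℕ) (S : Set (ℝ × ℝ)) : Finset (Fin n × Fin n) :=
  univ.filter (fun c => (S ∩ cell N M c).Nonempty)

theorem mem_Cs {N M n : ℕ} {S : Set (ℝ × ℝ)} {c : Fin n × Fin n} :
    c ∈ Cs N M n S ↔ (S ∩ cell N M c).Nonempty := by
  classical
  unfold Cs
  simp only [mem_filter, mem_univ, true_and]

/-- vertically adjacent cells -/
theorem adj_ver {n : ℕ} {R B : Finset (Fin n × Fin n)}
    (h1 : ∀ e ∈ GF n, ga e ∈ B → gb e ∈ R → gb e ∈ B)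
    (h2 : ∀ e ∈ GF n, gb e ∈ B → ga e ∈ R → ga e ∈ B) {i j j' : Fin n}
    (hB : (i, j) ∈ B) (hR : (i, j') ∈ R) (h3 : j.val ≤ j'.val + 1) (h4 : j'.val ≤ j.val + 1) :
    (i, j') ∈ B := by
  rcases lt_trichotomy j.val j'.val with h | h | h
  · have hn : j.val + 1 < n := by have := j'.2; omega
    have h5 : nx j = j' := Fin.ext (by rw [nx_val hn]; omega)
    have h6 : gb ((i, j), true) = (i, j') := by simp [gb, h5]
    rw [← h6]
    refine h1 _ (mem_ver.2 hn) hB ?_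
    rw [h6]; exact hR
  · rw [← show j = j' from Fin.ext h]; exact hB
  · have hn : j'.val + 1 < n := by have := j.2; omega
    have h5 : nx j' = j := Fin.ext (by rw [nx_val hn]; omega)
    have h6 : gb ((i, j'), true) = (i, j) := by simp [gb, h5]
    refine h2 ((i, j'), true) (mem_ver.2 hn) ?_ hR
    rw [h6]; exact hB

/-- horizontally adjacent cells -/
theorem adj_hor {n : ℕ} {R B : Finset (Fin n × Fin n)}
    (h1 : ∀ e ∈ GF n, ga e ∈ B → gb e ∈ R → gb e ∈ B)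
    (h2 : ∀ e ∈ GF n, gb e ∈ B → ga e ∈ R → ga e ∈ B) {i i' j : Fin n}
    (hB : (i, j) ∈ B) (hR : (i', j) ∈ R) (h3 : i.val ≤ i'.val + 1) (h4 : i'.val ≤ i.val + 1) :
    (i', j) ∈ B := by
  rcases lt_trichotomy i.val i'.val with h | h | h
  · have hn : i.val + 1 < n := by have := i'.2; omega
    have h5 : nx i = i' := Fin.ext (by rw [nx_val hn]; omega)
    have h6 : gb ((i, j), false) = (i', j) := by simp [gb, h5]
    rw [← h6]
    refine h1 _ (mem_hor.2 hn) hB ?_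
    rw [h6]; exact hR
  · rw [← show i = i' from Fin.ext h]; exact hB
  · have hn : i'.val + 1 < n := by have := i.2; omega
    have h5 : nx i' = i := Fin.ext (by rw [nx_val hn]; omega)
    have h6 : gb ((i', j), false) = (i, j) := by simp [gb, h5]
    refine h2 ((i', j), false) (mem_hor.2 hn) ?_ hR
    rw [h6]; exact hB

theorem near {i j : ℕ} {x : ℝ} (h1 : (i : ℝ) ≤ x) (h2 : x ≤ (j : ℝ) + 1) : i ≤ j + 1 := by
  have : (i : ℝ) ≤ (j : ℝ) + 1 := h1.trans h2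
  exact_mod_cast this

/-- the cells which meet a connected set form a connected set -/
theorem con_Cs {N M n : ℕ} {S : Set (ℝ × ℝ)} (hS : IsPreconnected S)
    (hcov : ∀ p ∈ S, ∃ c : Fin n × Fin n, p ∈ cell N M c) :
    Con ga gb (GF n) (Cs N M n S) := by
  classical
  intro B hB hne h1 h2
  by_contra hBR
  obtain ⟨c0, hc0R, hc0B⟩ : ∃ c ∈ Cs N M n S, c ∉ B := by
    by_contra hno
    push Not at hno
    exact hBR (subset_antisymm hB hno)
  obtain ⟨b0, hb0⟩ := hne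
  have hcl : ∀ A : Finset (Fin n × Fin n), IsClosed (⋃ c ∈ A, cell N M c) := fun A =>
    A.finite_toSet.isClosed_biUnion fun c _ => isClosed_cell N M c
  have h3 := isPreconnected_closed_iff.1 hS (⋃ c ∈ B, cell N M c)
    (⋃ c ∈ Cs N M n S \ B, cell N M c) (hcl _) (hcl _) ?_ ?_ ?_
  · obtain ⟨p, hpS, hp1, hp2⟩ := h3
    simp only [Set.mem_iUnion] at hp1 hp2
    obtain ⟨⟨i, j⟩, hcB, hc⟩ := hp1
    obtain ⟨⟨i', j'⟩, hcR, hc'⟩ := hp2
    obtain ⟨hcR1, hcR2⟩ := mem_sdiff.1 hcR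
    unfold cell at hc hc'
    obtain ⟨⟨a1, a2⟩, a3, a4⟩ := hc
    obtain ⟨⟨b1, b2⟩, b3, b4⟩ := hc'
    simp only at a1 a2 a3 a4 b1 b2 b3 b4
    have hm : (i, j') ∈ Cs N M n S := by
      rw [mem_Cs]
      exact ⟨p, hpS, ⟨⟨a1, a2⟩, b3, b4⟩⟩
    have h4 := adj_ver h1 h2 hcB hm (near a3 b4) (near b3 a4)
    exact hcR2 (adj_hor h1 h2 h4 hcR1 (near a1 b2) (near b1 a2))
  · intro p hp
    obtain ⟨c, hc⟩ := hcov p hp
    by_cases hcB : c ∈ B
    · exact Or.inl (Set.mem_biUnion (show c ∈ (B : Set _) from hcB) hc)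
    · refine Or.inr (Set.mem_biUnion (show c ∈ ((Cs N M n S \ B : Finset _) : Set _) from ?_) hc)
      exact mem_coe.2 (mem_sdiff.2 ⟨mem_Cs.2 ⟨p, hp, hc⟩, hcB⟩)
  · obtain ⟨p, hp, hpc⟩ := mem_Cs.1 (hB hb0)
    exact ⟨p, hp, Set.mem_biUnion (show b0 ∈ (B : Set _) from hb0) hpc⟩
  · obtain ⟨p, hp, hpc⟩ := mem_Cs.1 hc0R
    exact ⟨p, hp, Set.mem_biUnion
      (show c0 ∈ ((Cs N M n S \ B : Finset _) : Set _) from
        mem_coe.2 (mem_sdiff.2 ⟨hc0R, hc0B⟩)) hpc⟩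

variable {V : Type} [Fintype V]

/-- a bound for finitely many compact sets -/
theorem exists_M (Z : V → Set (ℝ × ℝ)) (hc : ∀ v, IsCompact (Z v)) :
    ∃ M : ℕ, ∀ v, ∀ p ∈ Z v, |p.1| ≤ M ∧ |p.2| ≤ M := by
  have h1 : ∀ v, ∃ M : ℕ, ∀ p ∈ Z v, |p.1| ≤ M ∧ |p.2| ≤ M := by
    intro v
    obtain ⟨C, hC⟩ := (hc v).isBounded.exists_norm_le
    obtain ⟨M, hM⟩ := exists_nat_ge C
    refine ⟨M, fun p hp => ?_⟩
    have h2 := (hC p hp).trans hM
    exact ⟨(norm_fst_le p).trans h2, (norm_snd_le p).trans h2⟩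
  choose f hf using h1
  refine ⟨∑ v, f v, fun v p hp => ?_⟩
  have h2 : f v ≤ ∑ v, f v := single_le_sum (f := f) (fun _ _ => Nat.zero_le _) (mem_univ v)
  have h3 : (f v : ℝ) ≤ ((∑ v, f v : ℕ) : ℝ) := by exact_mod_cast h2
  exact ⟨(hf v p hp).1.trans h3, (hf v p hp).2.trans h3⟩

/-- the distances of disjoint sets -/
theorem exists_N (Z : V → Set (ℝ × ℝ)) (hc : ∀ v, IsCompact (Z v)) :
    ∃ N : ℕ, 0 < N ∧ ∀ u v, Disjoint (Z u) (Z v) → ∀ p ∈ Z u, ∀ q ∈ Z v, 1 < N * dist p q := by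
  have h1 : ∀ w : V × V, ∃ N : ℕ, Disjoint (Z w.1) (Z w.2) →
      ∀ p ∈ Z w.1, ∀ q ∈ Z w.2, 1 < N * dist p q := by
    rintro ⟨u, v⟩
    by_cases hd : Disjoint (Z u) (Z v)
    · obtain ⟨r, hr, h⟩ := Metric.exists_pos_forall_lt_edist (hc u) (hc v).isClosed hd
      have hr' : (0 : ℝ) < r := by exact_mod_cast hr
      obtain ⟨N, hN⟩ := exists_nat_gt (1 / (r : ℝ))
      refine ⟨N, fun _ p hp q hq => ?_⟩
      have h2 := h p hp q hq
      have h3 : (r : ℝ) < dist p q := by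
        rw [edist_dist] at h2
        have h4 : (r : ENNReal) = ENNReal.ofReal r := by simp
        rw [h4] at h2
        exact (ENNReal.ofReal_lt_ofReal_iff_of_nonneg hr'.le).1 h2
      have h5 : 1 < (N : ℝ) * r := by
        rw [div_lt_iff₀ hr'] at hN
        exact hN
      have h6 : (0 : ℝ) < N := by
        by_contra h
        push Not at h
        nlinarith
      nlinarith
    · exact ⟨0, fun h => absurd h hd⟩
  choose f hf using h1
  refine ⟨∑ w, f w + 1, Nat.succ_pos _, fun u v hd p hp q hq => ?_⟩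
  have h2 : f (u, v) ≤ ∑ w, f w + 1 :=
    (single_le_sum (f := f) (fun _ _ => Nat.zero_le _) (mem_univ (u, v))).trans (Nat.le_succ _)
  have h3 : (f (u, v) : ℝ) ≤ ((∑ w, f w + 1 : ℕ) : ℝ) := by exact_mod_cast h2
  have h4 := hf (u, v) hd p hp q hq
  have h5 : (0 : ℝ) ≤ dist p q := dist_nonneg
  nlinarith

/-- **Discretisation** -/
theorem disc (Z : V → Set (ℝ × ℝ)) (hc : ∀ v, IsCompact (Z v)) (hp : ∀ v, IsPreconnected (Z v)) :
    ∃ (n : ℕ) (R : V → Finset (Fin n × Fin n)), (∀ v, Con ga gb (GF n) (R v)) ∧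
      ∀ u v, (∃ c, c ∈ R u ∧ c ∈ R v) ↔ (Z u ∩ Z v).Nonempty := by
  obtain ⟨M, hM⟩ := exists_M Z hc
  obtain ⟨N, hN, hd⟩ := exists_N Z hc
  set n : ℕ := 2 * M * N + 1 with hn
  have hN' : (0 : ℝ) < N := by exact_mod_cast hN
  have one : ∀ x : ℝ, |x| ≤ M → ∃ i : Fin n, (i.val : ℝ) ≤ N * (x + M) ∧
      N * (x + M) ≤ i.val + 1 := by
    intro x hx
    rw [abs_le] at hx
    have h0 : 0 ≤ N * (x + M) := mul_nonneg hN'.le (by linarith [hx.1])
    have h1 : N * (x + M) < n := by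
      rw [hn]
      push_cast
      nlinarith [hx.2]
    refine ⟨⟨⌊N * (x + M)⌋₊, (Nat.floor_lt h0).2 h1⟩, Nat.floor_le h0, ?_⟩
    exact (Nat.lt_floor_add_one _).le
  have hcov : ∀ v, ∀ p ∈ Z v, ∃ c : Fin n × Fin n, p ∈ cell N M c := by
    intro v p hpv
    obtain ⟨h1, h2⟩ := hM v p hpv
    obtain ⟨i, hi⟩ := one p.1 h1
    obtain ⟨j, hj⟩ := one p.2 h2
    exact ⟨(i, j), hi, hj⟩
  refine ⟨n, fun v => Cs N M n (Z v), fun v => con_Cs (hp v) (hcov v), fun u v => ?_⟩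
  constructor
  · rintro ⟨c, h1, h2⟩
    obtain ⟨p, hpu, ⟨a1, a2⟩, a3, a4⟩ := mem_Cs.1 h1
    obtain ⟨q, hqv, ⟨b1, b2⟩, b3, b4⟩ := mem_Cs.1 h2
    by_contra hne
    have hdis : Disjoint (Z u) (Z v) := Set.disjoint_iff_inter_eq_empty.2
      (Set.not_nonempty_iff_eq_empty.1 hne)
    have h3 := hd u v hdis p hpu q hqv
    have h4 : dist p q ≤ 1 / N := by
      rw [Prod.dist_eq, max_le_iff, Real.dist_eq, Real.dist_eq, abs_le, abs_le]
      have key : ∀ x y : ℝ, N * (x + M) ≤ N * (y + M) + 1 → x - y ≤ 1 / N := by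
        intro x y h
        rw [le_div_iff₀ hN']
        nlinarith
      refine ⟨⟨?_, key _ _ (by linarith)⟩, ⟨?_, key _ _ (by linarith)⟩⟩
      · have := key q.1 p.1 (by linarith)
        linarith
      · have := key q.2 p.2 (by linarith)
        linarith
    have h5 : N * dist p q ≤ 1 := by
      rw [le_div_iff₀ hN'] at h4
      linarith
    linarith
  · rintro ⟨p, hpu, hpv⟩
    obtain ⟨c, hcp⟩ := hcov u p hpu
    exact ⟨c, mem_Cs.2 ⟨p, hpu, hcp⟩, mem_Cs.2 ⟨p, hpv, hcp⟩⟩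

/-- finitely many points of a path-connected set are in a compact connected subset -/
theorem sub_path {ι : Type} [Finite ι] {S : Set (ℝ × ℝ)} (hS : IsPathConnected S)
    (p : ι → ℝ × ℝ) (hp : ∀ i, p i ∈ S) :
    ∃ C : Set (ℝ × ℝ), C ⊆ S ∧ IsCompact C ∧ IsPreconnected C ∧ C.Nonempty ∧ ∀ i, p i ∈ C := by
  obtain ⟨x, hx, hj⟩ := hS
  choose γ hγ using fun i => hj (hp i)
  refine ⟨{x} ∪ ⋃ i, Set.range (γ i), ?_, ?_, ?_, ⟨x, Or.inl rfl⟩, ?_⟩
  · rintro y (hy | hy)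
    · rw [Set.mem_singleton_iff.1 hy]; exact hx
    · obtain ⟨i, hi⟩ := Set.mem_iUnion.1 hy
      obtain ⟨t, rfl⟩ := hi
      exact hγ i t
  · exact isCompact_singleton.union (isCompact_iUnion fun i => isCompact_range (γ i).continuous)
  · refine isPreconnected_of_forall x ?_
    rintro y (hy | hy)
    · exact ⟨{x}, fun z hz => Or.inl hz, rfl, hy, isPreconnected_singleton⟩
    · obtain ⟨i, hi⟩ := Set.mem_iUnion.1 hy
      refine ⟨Set.range (γ i), fun z hz => Or.inr (Set.mem_iUnion.2 ⟨i, hz⟩), ⟨0, (γ i).source⟩,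
        hi, isPreconnected_range (γ i).continuous⟩
  · exact fun i => Or.inr (Set.mem_iUnion.2 ⟨i, ⟨1, (γ i).target⟩⟩)

/-- replace path-connected sets by compact connected subsets with the same intersections -/
theorem cpt (Z : V → Set (ℝ × ℝ))
    (hZ : ∀ v, IsPathConnected (Z v) ∨ (IsCompact (Z v) ∧ IsPreconnected (Z v))) :
    ∃ Z' : V → Set (ℝ × ℝ), (∀ v, IsCompact (Z' v)) ∧ (∀ v, IsPreconnected (Z' v)) ∧
      ∀ u v, (Z' u ∩ Z' v).Nonempty ↔ (Z u ∩ Z v).Nonempty := by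
  classical
  have hex : ∀ w : V × V, ∃ p : ℝ × ℝ, (Z w.1 ∩ Z w.2).Nonempty → p ∈ Z w.1 ∩ Z w.2 := by
    intro w
    by_cases h : (Z w.1 ∩ Z w.2).Nonempty
    · obtain ⟨p, hp⟩ := h
      exact ⟨p, fun _ => hp⟩
    · exact ⟨0, fun h' => absurd h' h⟩
  choose P hP using hex
  have h1 : ∀ v, ∃ C : Set (ℝ × ℝ), C ⊆ Z v ∧ IsCompact C ∧ IsPreconnected C ∧
      (∀ u, (Z u ∩ Z v).Nonempty → P (u, v) ∈ C) ∧ (∀ u, (Z v ∩ Z u).Nonempty → P (v, u) ∈ C) := by
    intro v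
    rcases hZ v with h | ⟨h, h'⟩
    · obtain ⟨x, hx⟩ := h.nonempty
      obtain ⟨C, c1, c2, c3, _, c4⟩ := sub_path h
        (fun w : V × Bool => if w.2 = true then
          (if (Z w.1 ∩ Z v).Nonempty then P (w.1, v) else x) else
          (if (Z v ∩ Z w.1).Nonempty then P (v, w.1) else x)) (by
          rintro ⟨u, c⟩
          simp only
          split_ifs with h1 h2 h3
          · exact (hP (u, v) h2).2
          · exact hx
          · exact (hP (v, u) h3).1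
          · exact hx)
      refine ⟨C, c1, c2, c3, fun u hu => ?_, fun u hu => ?_⟩
      · have := c4 (u, true)
        simp only [if_true] at this
        rwa [if_pos hu] at this
      · have := c4 (u, false)
        simp only [Bool.false_eq_true, if_false] at this
        rwa [if_pos hu] at this
    · exact ⟨Z v, subset_rfl, h, h', fun u hu => (hP (u, v) hu).2, fun u hu => (hP (v, u) hu).1⟩
  choose C c1 c2 c3 c4 c5 using h1
  refine ⟨C, c2, c3, fun u v => ⟨?_, ?_⟩⟩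
  · rintro ⟨p, hp1, hp2⟩
    exact ⟨p, c1 u hp1, c1 v hp2⟩
  · intro h
    exact ⟨P (u, v), c5 u v h, c4 v u h⟩

end Disc

end Pool.Agent.J4.H76.SG
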