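import Pool.Agent.J4.H76.SG.Id

set_option autoImplicit false
set_option linter.unusedSectionVars false

/-! # MacLane's condition for square grids -/

namespace Pool.Agent.J4.H76.SG

open Finset Pool.Agent.TH676.Z MacConx MacDelx

namespace Grid

variable {n : ℕ}

/-- the next number -/
def nx (i : Fin n) : Fin n := if h : i.val + 1 < n then ⟨i.val + 1, h⟩ else i

theorem nx_val {i : Fin n} (h : i.val + 1 < n) : (nx i).val = i.val + 1 := by
  unfold nx
  rw [dif_pos h]

theorem nx_last {i : Fin n} (h : ¬ i.val + 1 < n) : nx i = i := by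
  unfold nx
  rw [dif_neg h]

/-- the first end -/
def ga (e : (Fin n × Fin n) × Bool) : Fin n × Fin n := e.1

/-- the second end -/
def gb (e : (Fin n × Fin n) × Bool) : Fin n × Fin n :=
  if e.2 then (e.1.1, nx e.1.2) else (nx e.1.1, e.1.2)

/-- the proper edges -/
def GF (n : ℕ) : Finset ((Fin n × Fin n) × Bool) := univ.filter (fun e => ga e ≠ gb e)

theorem mem_hor {i j : Fin n} : ((i, j), false) ∈ GF n ↔ i.val + 1 < n := by
  unfold GF ga gb
  rw [mem_filter]
  constructor
  · rintro ⟨_, h⟩
    by_contra h1
    apply h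
    simp [nx_last h1]
  · intro h
    refine ⟨mem_univ _, fun h1 => ?_⟩
    have h2 := congrArg (fun p : Fin n × Fin n => p.1.val) h1
    simp only [Bool.false_eq_true, if_false] at h2
    rw [nx_val h] at h2
    omega

theorem mem_ver {i j : Fin n} : ((i, j), true) ∈ GF n ↔ j.val + 1 < n := by
  unfold GF ga gb
  rw [mem_filter]
  constructor
  · rintro ⟨_, h⟩
    by_contra h1
    apply h
    simp [nx_last h1]
  · intro h
    refine ⟨mem_univ _, fun h1 => ?_⟩
    have h2 := congrArg (fun p : Fin n × Fin n => p.2.val) h1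
    simp only [if_true] at h2
    rw [nx_val h] at h2
    omega

/-- the square -/
def Sq (p : Fin n × Fin n) : (Fin n × Fin n) × Bool → ZMod 2 :=
  if p.1.val + 1 < n ∧ p.2.val + 1 < n then
    Pi.single (p, false) 1 + Pi.single (p, true) 1 + Pi.single ((nx p.1, p.2), true) 1 +
      Pi.single ((p.1, nx p.2), false) 1
  else 0

theorem sq_hor (p : Fin n × Fin n) (i j : Fin n) : Sq p ((i, j), false) =
    (if p = (i, j) ∧ i.val + 1 < n ∧ j.val + 1 < n then 1 else 0) +
      (if p.1 = i ∧ p.2.val + 1 = j.val ∧ i.val + 1 < n then 1 else 0) := by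
  obtain ⟨p1, p2⟩ := p
  unfold Sq
  by_cases h : p1.val + 1 < n ∧ p2.val + 1 < n
  · rw [if_pos h]
    have h1 : ∀ q : Fin n × Fin n, (Pi.single (q, true) (1 : ZMod 2) :
        (Fin n × Fin n) × Bool → ZMod 2) ((i, j), false) = 0 := by
      intro q
      exact Pi.single_eq_of_ne (by simp) _
    simp only [Pi.add_apply, h1, add_zero]
    rw [Pi.single_apply, Pi.single_apply]
    congr 1
    · by_cases h2 : p1 = i ∧ p2 = j
      · obtain ⟨rfl, rfl⟩ := h2
        simp [h.1, h.2]
      · rw [if_neg, if_neg]
        · rintro ⟨h3, _⟩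
          exact h2 ⟨congrArg Prod.fst h3, congrArg Prod.snd h3⟩
        · intro h3
          have h4 := congrArg Prod.fst h3
          exact h2 ⟨(congrArg Prod.fst h4).symm, (congrArg Prod.snd h4).symm⟩
    · by_cases h2 : p1 = i ∧ p2.val + 1 = j.val
      · obtain ⟨rfl, h3⟩ := h2
        have h4 : nx p2 = j := Fin.ext (by rw [nx_val h.2, h3])
        rw [h4, if_pos rfl, if_pos ⟨rfl, h3, h.1⟩]
      · rw [if_neg, if_neg]
        · rintro ⟨h3, h4, _⟩
          exact h2 ⟨h3, h4⟩
        · intro h3
          have h4 := congrArg Prod.fst h3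
          have h5 := congrArg Prod.fst h4
          have h6 := congrArg Prod.snd h4
          simp only at h5 h6
          exact h2 ⟨h5.symm, by rw [h6, nx_val h.2]⟩
  · rw [if_neg h, Pi.zero_apply, if_neg, if_neg, add_zero]
    · rintro ⟨h1, h2, h3⟩
      simp only at h1 h2
      exact h ⟨by rw [h1]; exact h3, by have := j.2; omega⟩
    · rintro ⟨h1, h2, h3⟩
      have h4 := congrArg Prod.fst h1
      have h5 := congrArg Prod.snd h1
      simp only at h4 h5
      exact h ⟨h4 ▸ h2, h5 ▸ h3⟩

theorem sq_ver (p : Fin n × Fin n) (i j : Fin n) : Sq p ((i, j), true) =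
    (if p = (i, j) ∧ i.val + 1 < n ∧ j.val + 1 < n then 1 else 0) +
      (if p.2 = j ∧ p.1.val + 1 = i.val ∧ j.val + 1 < n then 1 else 0) := by
  obtain ⟨p1, p2⟩ := p
  unfold Sq
  by_cases h : p1.val + 1 < n ∧ p2.val + 1 < n
  · rw [if_pos h]
    have h1 : ∀ q : Fin n × Fin n, (Pi.single (q, false) (1 : ZMod 2) :
        (Fin n × Fin n) × Bool → ZMod 2) ((i, j), true) = 0 := by
      intro q
      exact Pi.single_eq_of_ne (by simp) _
    simp only [Pi.add_apply, h1, add_zero, zero_add]
    rw [Pi.single_apply, Pi.single_apply]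
    congr 1
    · by_cases h2 : p1 = i ∧ p2 = j
      · obtain ⟨rfl, rfl⟩ := h2
        simp [h.1, h.2]
      · rw [if_neg, if_neg]
        · rintro ⟨h3, _⟩
          exact h2 ⟨congrArg Prod.fst h3, congrArg Prod.snd h3⟩
        · intro h3
          have h4 := congrArg Prod.fst h3
          exact h2 ⟨(congrArg Prod.fst h4).symm, (congrArg Prod.snd h4).symm⟩
    · by_cases h2 : p2 = j ∧ p1.val + 1 = i.val
      · obtain ⟨rfl, h3⟩ := h2
        have h4 : nx p1 = i := Fin.ext (by rw [nx_val h.1, h3])
        rw [h4, if_pos rfl, if_pos ⟨rfl, h3, h.2⟩]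
      · rw [if_neg, if_neg]
        · rintro ⟨h3, h4, _⟩
          exact h2 ⟨h3, h4⟩
        · intro h3
          have h4 := congrArg Prod.fst h3
          have h5 := congrArg Prod.fst h4
          have h6 := congrArg Prod.snd h4
          simp only at h5 h6
          exact h2 ⟨h6.symm, by rw [h5, nx_val h.1]⟩
  · rw [if_neg h, Pi.zero_apply, if_neg, if_neg, add_zero]
    · rintro ⟨h1, h2, h3⟩
      simp only at h1 h2
      exact h ⟨by have := i.2; omega, by rw [h1]; exact h3⟩
    · rintro ⟨h1, h2, h3⟩
      have h4 := congrArg Prod.fst h1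
      have h5 := congrArg Prod.snd h1
      simp only at h4 h5
      exact h ⟨h4 ▸ h2, h5 ▸ h3⟩

theorem sq_mem (p : Fin n × Fin n) : Sq p ∈ ZF ga gb (GF n) := by
  obtain ⟨p1, p2⟩ := p
  by_cases h : p1.val + 1 < n ∧ p2.val + 1 < n
  · refine ⟨fun e he => ?_, fun v => ?_⟩
    · obtain ⟨⟨i, j⟩, c⟩ := e
      cases c
      · rw [mem_hor] at he
        rw [sq_hor, if_neg, if_neg, add_zero]
        · rintro ⟨_, _, h3⟩; exact he h3
        · rintro ⟨_, h2, _⟩; exact he h2
      · rw [mem_ver] at he
        rw [sq_ver, if_neg, if_neg, add_zero]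
        · rintro ⟨_, _, h3⟩; exact he h3
        · rintro ⟨_, _, h3⟩; exact he h3
    · unfold Sq
      rw [if_pos h, bd2_add, bd2_add, bd2_add, bd2_single, bd2_single, bd2_single, bd2_single]
      unfold ga gb
      simp only [Bool.false_eq_true, if_false, if_true]
      have e1 := self_add (if (p1, p2) = v then (1 : ZMod 2) else 0)
      have e2 := self_add (if (nx p1, p2) = v then (1 : ZMod 2) else 0)
      have e3 := self_add (if (p1, nx p2) = v then (1 : ZMod 2) else 0)
      have e4 := self_add (if (nx p1, nx p2) = v then (1 : ZMod 2) else 0)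
      linear_combination e1 + e2 + e3 + e4
  · unfold Sq
    rw [if_neg h]
    exact Submodule.zero_mem _

/-- the previous number -/
def pv (i : Fin n) : Fin n := ⟨i.val - 1, by have := i.2; omega⟩

theorem sq_two (e : (Fin n × Fin n) × Bool) : (univ.filter (fun p => Sq p e ≠ 0)).card ≤ 2 := by
  obtain ⟨⟨i, j⟩, c⟩ := e
  cases c
  · have hsub : univ.filter (fun p : Fin n × Fin n => Sq p ((i, j), false) ≠ 0) ⊆
        {(i, j), (i, pv j)} := by
      rintro ⟨p1, p2⟩ hp
      have h1 := (mem_filter.1 hp).2
      rw [sq_hor] at h1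
      rw [mem_insert, mem_singleton]
      by_cases h2 : (p1, p2) = (i, j) ∧ i.val + 1 < n ∧ j.val + 1 < n
      · exact Or.inl h2.1
      · rw [if_neg h2, zero_add] at h1
        by_cases h3 : p1 = i ∧ p2.val + 1 = j.val ∧ i.val + 1 < n
        · right
          refine Prod.ext h3.1 (Fin.ext ?_)
          unfold pv
          simp only
          omega
        · rw [if_neg h3] at h1
          exact absurd rfl h1
    exact (card_le_card hsub).trans card_le_two
  · have hsub : univ.filter (fun p : Fin n × Fin n => Sq p ((i, j), true) ≠ 0) ⊆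
        {(i, j), (pv i, j)} := by
      rintro ⟨p1, p2⟩ hp
      have h1 := (mem_filter.1 hp).2
      rw [sq_ver] at h1
      rw [mem_insert, mem_singleton]
      by_cases h2 : (p1, p2) = (i, j) ∧ i.val + 1 < n ∧ j.val + 1 < n
      · exact Or.inl h2.1
      · rw [if_neg h2, zero_add] at h1
        by_cases h3 : p2 = j ∧ p1.val + 1 = i.val ∧ j.val + 1 < n
        · right
          refine Prod.ext (Fin.ext ?_) h3.1
          unfold pv
          simp only
          omega
        · rw [if_neg h3] at h1
          exact absurd rfl h1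
    exact (card_le_card hsub).trans card_le_two

/-- the sum over a cut -/
theorem cut {z : (Fin n × Fin n) × Bool → ZMod 2} (hz : z ∈ ZF ga gb (GF n))
    (B : Fin n × Fin n → Prop) [DecidablePred B] :
    ∑ e, ((if B (ga e) then z e else 0) + (if B (gb e) then z e else 0)) = 0 := by
  have h1 : ∑ v ∈ univ.filter B, bd2 ga gb z v = 0 := sum_eq_zero fun v _ => hz.2 v
  unfold bd2 at h1
  rw [sum_comm] at h1
  refine Eq.trans (sum_congr rfl fun e _ => ?_) h1
  rw [sum_add_distrib, Finset.sum_ite_eq, Finset.sum_ite_eq]
  simp only [mem_filter, mem_univ, true_and]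

/-- the sum of the vertical edges between the rows `j - 1` and `j` in the columns up to `i` -/
def W (z : (Fin n × Fin n) × Bool → ZMod 2) (i j : ℕ) : ZMod 2 :=
  ∑ e, if e.2 = true ∧ e.1.1.val ≤ i ∧ e.1.2.val + 1 = j then z e else 0

theorem W_zero (z : (Fin n × Fin n) × Bool → ZMod 2) (i : ℕ) : W z i 0 = 0 := by
  unfold W
  refine sum_eq_zero fun e _ => if_neg ?_
  rintro ⟨_, _, h⟩
  omega

theorem W_top {z : (Fin n × Fin n) × Bool → ZMod 2} (hz : z ∈ ZF ga gb (GF n)) (i j : ℕ)
    (hj : n ≤ j) : W z i j = 0 := by
  unfold W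
  refine sum_eq_zero fun e _ => ?_
  by_cases h : e.2 = true ∧ e.1.1.val ≤ i ∧ e.1.2.val + 1 = j
  · rw [if_pos h]
    apply hz.1
    obtain ⟨⟨p, q⟩, c⟩ := e
    obtain ⟨h1, _, h3⟩ := h
    simp only at h1 h3
    subst h1
    rw [mem_ver]
    omega
  · rw [if_neg h]

theorem W_hor {z : (Fin n × Fin n) × Bool → ZMod 2} (hz : z ∈ ZF ga gb (GF n)) (i j : Fin n) :
    z ((i, j), false) = W z i.val (j.val + 1) + W z i.val j.val := by
  have h1 := cut hz (fun v => v.1.val ≤ i.val ∧ v.2 = j)
  have h2 : ∀ e : (Fin n × Fin n) × Bool,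
      ((if (ga e).1.val ≤ i.val ∧ (ga e).2 = j then z e else 0) +
        (if (gb e).1.val ≤ i.val ∧ (gb e).2 = j then z e else 0)) =
      (if e.2 = true ∧ e.1.1.val ≤ i.val ∧ e.1.2.val + 1 = j.val + 1 then z e else 0) +
        (if e.2 = true ∧ e.1.1.val ≤ i.val ∧ e.1.2.val + 1 = j.val then z e else 0) +
        (if e = ((i, j), false) then z e else 0) := by
    intro e
    by_cases he : e ∈ GF n
    · obtain ⟨⟨p, q⟩, c⟩ := e
      cases c
      · rw [mem_hor] at he
        have hb : gb ((p, q), false) = (nx p, q) := by simp [gb]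
        have ha : ga ((p, q), false) = (p, q) := rfl
        rw [hb, ha]
        simp only [Bool.false_eq_true, false_and, if_false, zero_add, nx_val he]
        by_cases hq : q = j
        · subst hq
          by_cases h3 : p.val ≤ i.val
          · by_cases h4 : p.val + 1 ≤ i.val
            · rw [if_pos ⟨h3, rfl⟩, if_pos ⟨h4, rfl⟩, if_neg, self_add]
              intro h5
              have h6 := congrArg Prod.fst h5
              have h7 := congrArg Prod.fst h6
              simp only at h7
              rw [h7] at h4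
              omega
            · rw [if_pos ⟨h3, rfl⟩, if_neg (fun h => h4 h.1), add_zero, if_pos]
              have : p = i := Fin.ext (by omega)
              rw [this]
          · rw [if_neg (fun h => h3 h.1), if_neg (fun h => h3 (by omega)), if_neg, add_zero]
            intro h5
            have h6 := congrArg Prod.fst h5
            have h7 := congrArg Prod.fst h6
            simp only at h7
            rw [h7] at h3
            exact h3 le_rfl
        · rw [if_neg (fun h => hq h.2), if_neg (fun h => hq h.2), if_neg, add_zero]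
          intro h5
          have h6 := congrArg Prod.fst h5
          exact hq (congrArg Prod.snd h6)
      · rw [mem_ver] at he
        have hb : gb ((p, q), true) = (p, nx q) := by simp [gb]
        have ha : ga ((p, q), true) = (p, q) := rfl
        rw [hb, ha]
        simp only [true_and]
        have h5 : ((p, q), true) ≠ ((i, j), false) := by simp
        rw [if_neg h5, add_zero]
        have h6 : q = j ↔ q.val + 1 = j.val + 1 := by
          rw [Fin.ext_iff]; omega
        have h7 : nx q = j ↔ q.val + 1 = j.val := by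
          rw [Fin.ext_iff, nx_val he]
        simp only [h6, h7]
    · have h3 : z e = 0 := hz.1 e he
      simp [h3]
  rw [sum_congr rfl fun e _ => h2 e, sum_add_distrib, sum_add_distrib, sum_ite_eq',
    if_pos (mem_univ _)] at h1
  unfold W
  generalize (∑ e : (Fin n × Fin n) × Bool,
    if e.2 = true ∧ e.1.1.val ≤ i.val ∧ e.1.2.val + 1 = j.val + 1 then z e else 0) = s1 at h1 ⊢
  generalize (∑ e : (Fin n × Fin n) × Bool,
    if e.2 = true ∧ e.1.1.val ≤ i.val ∧ e.1.2.val + 1 = j.val then z e else 0) = s2 at h1 ⊢
  generalize z ((i, j), false) = s3 at h1 ⊢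
  revert s1 s2 s3; decide

theorem W_row {z : (Fin n × Fin n) × Bool → ZMod 2} (hz : z ∈ ZF ga gb (GF n)) (i j : ℕ)
    (hi : n ≤ i + 1) : W z i j = 0 := by
  have h1 := cut hz (fun v => v.2.val < j)
  have h2 : ∀ e : (Fin n × Fin n) × Bool,
      ((if (ga e).2.val < j then z e else 0) + (if (gb e).2.val < j then z e else 0)) =
      (if e.2 = true ∧ e.1.1.val ≤ i ∧ e.1.2.val + 1 = j then z e else 0) := by
    intro e
    by_cases he : e ∈ GF n
    · obtain ⟨⟨p, q⟩, c⟩ := e
      cases c
      · have hb : gb ((p, q), false) = (nx p, q) := by simp [gb]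
        have ha : ga ((p, q), false) = (p, q) := rfl
        rw [hb, ha]
        simp only [Bool.false_eq_true, false_and, if_false]
        exact self_add _
      · rw [mem_ver] at he
        have hb : gb ((p, q), true) = (p, nx q) := by simp [gb]
        have ha : ga ((p, q), true) = (p, q) := rfl
        rw [hb, ha]
        simp only [true_and, nx_val he]
        have hp : p.val ≤ i := by have := p.2; omega
        by_cases h3 : q.val + 1 < j
        · rw [if_pos (by omega), if_pos h3, if_neg (by omega), self_add]
        · by_cases h4 : q.val + 1 = j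
          · rw [if_pos (by omega), if_neg h3, if_pos ⟨hp, h4⟩, add_zero]
          · rw [if_neg (by omega), if_neg h3, if_neg (fun h => h4 h.2), add_zero]
    · have h3 : z e = 0 := hz.1 e he
      simp [h3]
  rw [sum_congr rfl fun e _ => h2 e] at h1
  exact h1

theorem W_ver (z : (Fin n × Fin n) × Bool → ZMod 2) {i j : Fin n} {i' : ℕ}
    (hi : i.val = i' + 1) : W z i.val (j.val + 1) = W z i' (j.val + 1) + z ((i, j), true) := by
  unfold W
  have h1 : z ((i, j), true) = ∑ e, if e = ((i, j), true) then z e else 0 := by
    rw [sum_ite_eq', if_pos (mem_univ _)]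
  rw [h1, ← sum_add_distrib]
  refine sum_congr rfl fun e _ => ?_
  obtain ⟨⟨p, q⟩, c⟩ := e
  by_cases h2 : c = true ∧ q = j
  · obtain ⟨rfl, rfl⟩ := h2
    by_cases h3 : p = i
    · subst h3
      rw [if_pos ⟨rfl, le_rfl, rfl⟩, if_neg (by simp only; omega), if_pos rfl, zero_add]
    · have h4 : ((p, q), true) ≠ ((i, q), true) := by
        intro h
        exact h3 (congrArg (fun e => e.1.1) h)
      have h5 : p.val ≠ i.val := fun h => h3 (Fin.ext h)
      rw [if_neg h4, add_zero]
      refine if_congr ?_ rfl rfl
      simp only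
      constructor
      · rintro ⟨a1, a2, a3⟩; exact ⟨a1, by omega, a3⟩
      · rintro ⟨a1, a2, a3⟩; exact ⟨a1, by omega, a3⟩
  · have h4 : ((p, q), c) ≠ ((i, j), true) := by
      intro h
      exact h2 ⟨congrArg (fun e => e.2) h, congrArg (fun e => e.1.2) h⟩
    rw [if_neg h4, add_zero]
    rw [if_neg, if_neg]
    · rintro ⟨a1, _, a3⟩
      simp only at a1 a3
      exact h2 ⟨a1, Fin.ext (by omega)⟩
    · rintro ⟨a1, _, a3⟩
      simp only at a1 a3
      exact h2 ⟨a1, Fin.ext (by omega)⟩

theorem W_ver0 (z : (Fin n × Fin n) × Bool → ZMod 2) {i j : Fin n}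
    (hi : i.val = 0) : W z i.val (j.val + 1) = z ((i, j), true) := by
  unfold W
  have h1 : z ((i, j), true) = ∑ e, if e = ((i, j), true) then z e else 0 := by
    rw [sum_ite_eq', if_pos (mem_univ _)]
  rw [h1]
  refine sum_congr rfl fun e _ => ?_
  obtain ⟨⟨p, q⟩, c⟩ := e
  refine if_congr ?_ rfl rfl
  simp only
  constructor
  · rintro ⟨a1, a2, a3⟩
    have b1 : p = i := Fin.ext (by omega)
    have b2 : q = j := Fin.ext (by omega)
    rw [a1, b1, b2]
  · intro h
    have b0 := congrArg (fun e => e.2) h
    have b1 := congrArg (fun e => e.1.1) h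
    have b2 := congrArg (fun e => e.1.2) h
    simp only at b0 b1 b2
    subst b0 b1 b2
    exact ⟨rfl, le_rfl, rfl⟩

/-- every element of the cycle space is a sum of squares -/
theorem sum_sq {z : (Fin n × Fin n) × Bool → ZMod 2} (hz : z ∈ ZF ga gb (GF n)) :
    z = ∑ p : Fin n × Fin n, W z p.1.val (p.2.val + 1) • Sq p := by
  funext e
  rw [Finset.sum_apply]
  simp only [Pi.smul_apply, smul_eq_mul]
  by_cases he : e ∈ GF n
  · obtain ⟨⟨i, j⟩, c⟩ := e
    cases c
    · rw [mem_hor] at he
      rw [W_hor hz]
      have h1 : ∀ p : Fin n × Fin n, W z p.1.val (p.2.val + 1) * Sq p ((i, j), false) =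
          (if p = (i, j) then W z i.val (j.val + 1) else 0) +
            (if p = (i, pv j) then W z i.val j.val else 0) := by
        rintro ⟨p, q⟩
        rw [sq_hor, mul_add]
        congr 1
        · by_cases h2 : (p, q) = (i, j)
          · have h3 := congrArg Prod.fst h2
            have h4 := congrArg Prod.snd h2
            simp only at h3 h4
            subst h3 h4
            by_cases h5 : q.val + 1 < n
            · rw [if_pos ⟨rfl, he, h5⟩, if_pos rfl, mul_one]
            · rw [if_neg (fun h => h5 h.2.2), if_pos rfl, W_top hz _ _ (show n ≤ q.val + 1 by omega), zero_mul]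
          · rw [if_neg (fun h => h2 h.1), if_neg h2, mul_zero]
        · simp only
          by_cases h2 : p = i ∧ q.val + 1 = j.val ∧ i.val + 1 < n
          · obtain ⟨h3, h4, h5⟩ := h2
            subst h3
            have h6 : q = pv j := Fin.ext (by unfold pv; simp only; omega)
            rw [if_pos ⟨rfl, h4, h5⟩, h6, if_pos rfl, mul_one, ← h6, h4]
          · rw [if_neg h2, mul_zero]
            by_cases h3 : (p, q) = (i, pv j)
            · rw [if_pos h3]
              have h4 := congrArg Prod.fst h3
              have h5 := congrArg (fun p => p.2.val) h3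
              simp only [pv] at h4 h5
              have h6 : j.val = 0 := by
                by_contra h7
                exact h2 ⟨h4, by omega, he⟩
              rw [h6, W_zero]
            · rw [if_neg h3]
      rw [sum_congr rfl fun p _ => h1 p, sum_add_distrib, sum_ite_eq', sum_ite_eq',
        if_pos (mem_univ _), if_pos (mem_univ _)]
    · rw [mem_ver] at he
      have h1 : ∀ p : Fin n × Fin n, W z p.1.val (p.2.val + 1) * Sq p ((i, j), true) =
          (if p = (i, j) then W z i.val (j.val + 1) else 0) +
            (if p = (pv i, j) then (if i.val = 0 then 0 else W z (i.val - 1) (j.val + 1))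
              else 0) := by
        rintro ⟨p, q⟩
        rw [sq_ver, mul_add]
        congr 1
        · by_cases h2 : (p, q) = (i, j)
          · have h3 := congrArg Prod.fst h2
            have h4 := congrArg Prod.snd h2
            simp only at h3 h4
            subst h3 h4
            by_cases h5 : p.val + 1 < n
            · rw [if_pos ⟨rfl, h5, he⟩, if_pos rfl, mul_one]
            · rw [if_neg (fun h => h5 h.2.1), if_pos rfl, W_row hz _ _ (show n ≤ p.val + 1 by omega), zero_mul]
          · rw [if_neg (fun h => h2 h.1), if_neg h2, mul_zero]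
        · simp only
          by_cases h2 : q = j ∧ p.val + 1 = i.val ∧ j.val + 1 < n
          · obtain ⟨h3, h4, h5⟩ := h2
            subst h3
            have h6 : p = pv i := Fin.ext (by unfold pv; simp only; omega)
            rw [if_pos ⟨rfl, h4, h5⟩, h6, if_pos rfl, mul_one, if_neg (by omega), ← h6]
            have h7 : p.val = i.val - 1 := by omega
            rw [h7]
          · rw [if_neg h2, mul_zero]
            by_cases h3 : (p, q) = (pv i, j)
            · rw [if_pos h3]
              have h4 := congrArg (fun p => p.1.val) h3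
              have h5 := congrArg Prod.snd h3
              simp only [pv] at h4 h5
              rw [if_pos]
              by_contra h7
              exact h2 ⟨h5, by omega, he⟩
            · rw [if_neg h3]
      rw [sum_congr rfl fun p _ => h1 p, sum_add_distrib, sum_ite_eq', sum_ite_eq',
        if_pos (mem_univ _), if_pos (mem_univ _)]
      by_cases hi : i.val = 0
      · rw [if_pos hi, add_zero, W_ver0 z hi]
      · rw [if_neg hi, W_ver z (i := i) (j := j) (i' := i.val - 1) (by omega)]
        have := self_add (W z (i.val - 1) (j.val + 1))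
        linear_combination -this
  · rw [hz.1 e he]
    symm
    refine sum_eq_zero fun p _ => ?_
    rw [(sq_mem p).1 e he, mul_zero]

/-- **Square grids** satisfy MacLane's condition. -/
theorem mac (n : ℕ) : Mac 0 (ga (n := n)) gb (GF n) := by
  classical
  let q := (Fintype.equivFin (Fin n × Fin n)).symm
  refine ⟨Fintype.card (Fin n × Fin n), fun i => Sq (q i), fun i => sq_mem _, fun e => ?_, ?_⟩
  · refine le_trans ?_ (sq_two e)
    refine card_le_card_of_injOn q ?_ q.injective.injOn
    intro j hj
    exact mem_coe.2 (mem_filter.2 ⟨mem_univ _, (mem_filter.1 (mem_coe.1 hj)).2⟩)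
  · rw [add_zero]
    refine Submodule.finrank_mono ?_
    intro z hz
    rw [sum_sq hz]
    refine Submodule.sum_mem _ fun p _ => Submodule.smul_mem _ _ (Submodule.subset_span ?_)
    exact ⟨q.symm p, by simp⟩

end Grid

end Pool.Agent.J4.H76.SG
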