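import Pool.Agent.TH676.Z.MacCon
import Pool.Agent.TH676.Z.MacDel

set_option autoImplicit false
set_option linter.unusedSectionVars false

/-! # MacLane's condition and the identification of two vertices -/

namespace Pool.Agent.J4.H76.SG

open Finset Pool.Agent.TH676.Z MacConx MacDelx

variable {X D : Type} [Fintype X] [DecidableEq X] [Fintype D] [DecidableEq D]

/-- `P` is a chain in `F` with the boundary `x + y` -/
def Chn (a b : D → X) (F : Finset D) (x y : X) (P : D → ZMod 2) : Prop :=
  (∀ e, e ∉ F → P e = 0) ∧
    ∀ v, bd2 a b P v = (if v = x then 1 else 0) + (if v = y then 1 else 0)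

theorem zf_id {a b : D → X} {F : Finset D} {x y : X} (hxy : x ≠ y) {P : D → ZMod 2}
    (hP : Chn a b F x y P) : ZF (ctr x y ∘ a) (ctr x y ∘ b) F = ZF a b F ⊔ Submodule.span (ZMod 2) {P} := by
  apply le_antisymm
  · intro z hz
    obtain ⟨h1, h2⟩ := hz
    have h3 : ∀ v, v ≠ x → v ≠ y → bd2 a b z v = 0 := by
      intro v hvx hvy
      have := h2 v
      rwa [bd2_ctr _ _ _ _ hxy, if_neg hvy, if_neg hvx] at this
    have h4 : bd2 a b z x + bd2 a b z y = 0 := by
      have := h2 x
      rwa [bd2_ctr _ _ _ _ hxy, if_neg hxy, if_pos rfl] at this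
    by_cases h0 : bd2 a b z x = 0
    · refine Submodule.mem_sup_left ⟨h1, fun v => ?_⟩
      by_cases hvx : v = x
      · rw [hvx, h0]
      · by_cases hvy : v = y
        · rw [h0, zero_add] at h4
          rw [hvy, h4]
        · exact h3 v hvx hvy
    · have h5 : bd2 a b z x = 1 := by
        generalize bd2 a b z x = c at h0
        revert c; decide
      have h6 : bd2 a b z y = 1 := by
        rw [h5] at h4
        generalize bd2 a b z y = c at h4
        revert c; decide
      have h7 : z + P ∈ ZF a b F := by
        refine ⟨fun e he => by rw [Pi.add_apply, h1 e he, hP.1 e he, add_zero], fun v => ?_⟩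
        rw [bd2_add, hP.2]
        by_cases hvx : v = x
        · rw [hvx, h5, if_pos rfl, if_neg hxy]
          decide
        · by_cases hvy : v = y
          · rw [hvy, h6, if_neg hxy.symm, if_pos rfl]
            decide
          · rw [h3 v hvx hvy, if_neg hvx, if_neg hvy]
            decide
      have h8 : z = (z + P) + P := by
        funext e
        rw [Pi.add_apply, Pi.add_apply, add_assoc, self_add, add_zero]
      rw [h8]
      exact Submodule.add_mem _ (Submodule.mem_sup_left h7)
        (Submodule.mem_sup_right (Submodule.mem_span_singleton_self _))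
  · refine sup_le ?_ ?_
    · rintro z ⟨h1, h2⟩
      refine ⟨h1, fun v => ?_⟩
      rw [bd2_ctr _ _ _ _ hxy, h2, h2, h2]
      simp
    · rw [Submodule.span_singleton_le_iff_mem]
      refine ⟨hP.1, fun v => ?_⟩
      rw [bd2_ctr _ _ _ _ hxy, hP.2, hP.2, hP.2]
      by_cases hvy : v = y
      · rw [if_pos hvy]
      · rw [if_neg hvy, if_neg hvy]
        by_cases hvx : v = x
        · rw [if_pos hvx, if_pos rfl, if_neg hxy, if_neg hxy.symm, if_pos rfl]
          decide
        · rw [if_neg hvx, if_neg hvx]
          decide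

theorem not_zf {a b : D → X} {F : Finset D} {x y : X} (hxy : x ≠ y) {P : D → ZMod 2}
    (hP : Chn a b F x y P) : P ∉ ZF a b F := by
  rintro ⟨_, h⟩
  have h1 := h x
  rw [hP.2, if_pos rfl, if_neg hxy, add_zero] at h1
  exact one_ne_zero h1

/-- **Identification** of two vertices which are joined by a chain `P` such that every edge of `P`
is in at most one of the members `K i + c i P`. -/
theorem mac_id {a b : D → X} {F : Finset D} {h : ℕ} {x y : X} (hxy : x ≠ y) {P : D → ZMod 2}
    (hP : Chn a b F x y P) {k : ℕ} {K : Fin k → D → ZMod 2} (hK : ∀ i, K i ∈ ZF a b F)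
    (h2 : ∀ e, (univ.filter (fun i => K i e ≠ 0)).card ≤ 2)
    (hr : Module.finrank (ZMod 2) (ZF a b F) ≤
      Module.finrank (ZMod 2) (Submodule.span (ZMod 2) (Set.range K)) + h)
    (c : Fin k → ZMod 2)
    (hc : ∀ e, P e ≠ 0 → (univ.filter (fun i => K i e + c i * P e ≠ 0)).card ≤ 1) :
    Mac h (ctr x y ∘ a) (ctr x y ∘ b) F := by
  have hzf := zf_id hxy hP
  set K' : Fin (k + 1) → D → ZMod 2 := Fin.cons P (fun i => K i + c i • P) with hK'
  have hPs : P ∈ Submodule.span (ZMod 2) (Set.range K') :=
    Submodule.subset_span ⟨0, by rw [hK', Fin.cons_zero]⟩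
  refine ⟨k + 1, K', fun i => ?_, fun e => ?_, ?_⟩
  · rw [hzf]
    refine Fin.cases ?_ (fun i => ?_) i
    · rw [hK', Fin.cons_zero]
      exact Submodule.mem_sup_right (Submodule.mem_span_singleton_self _)
    · rw [hK', Fin.cons_succ]
      exact Submodule.add_mem _ (Submodule.mem_sup_left (hK i))
        (Submodule.smul_mem _ _ (Submodule.mem_sup_right (Submodule.mem_span_singleton_self _)))
  · have hsub : univ.filter (fun i => K' i e ≠ 0) ⊆
        (if P e ≠ 0 then {0} else ∅) ∪
          (univ.filter (fun i => K i e + c i * P e ≠ 0)).image Fin.succ := by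
      intro i hi
      rw [mem_filter] at hi
      have hi2 := hi.2
      rw [mem_union]
      revert hi2
      refine Fin.cases ?_ (fun i => ?_) i
      · intro hi2
        rw [hK', Fin.cons_zero] at hi2
        left
        rw [if_pos hi2]
        exact mem_singleton_self _
      · intro hi2
        rw [hK', Fin.cons_succ, Pi.add_apply, Pi.smul_apply, smul_eq_mul] at hi2
        right
        exact mem_image.2 ⟨i, mem_filter.2 ⟨mem_univ _, hi2⟩, rfl⟩
    refine (card_le_card hsub).trans ((card_union_le _ _).trans ?_)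
    have h3 : ((univ.filter (fun i => K i e + c i * P e ≠ 0)).image Fin.succ).card ≤
      (univ.filter (fun i => K i e + c i * P e ≠ 0)).card := card_image_le
    by_cases hPe : P e = 0
    · rw [if_neg (not_not.2 hPe), card_empty, zero_add]
      refine h3.trans ?_
      simp only [hPe, mul_zero, add_zero]
      exact h2 e
    · rw [if_pos hPe, card_singleton]
      have := hc e hPe
      omega
  · rw [hzf]
    have e1 := Submodule.finrank_add_le_finrank_add_finrank (ZF a b F)
      (Submodule.span (ZMod 2) {P})
    have e2 : Module.finrank (ZMod 2) (Submodule.span (ZMod 2) {P}) ≤ 1 := by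
      have := finrank_span_le_card (R := ZMod 2) ({P} : Set (D → ZMod 2))
      simpa using this
    have hle : Submodule.span (ZMod 2) (Set.range K) ≤ Submodule.span (ZMod 2) (Set.range K') := by
      rw [Submodule.span_le]
      rintro _ ⟨i, rfl⟩
      have h4 : K' i.succ ∈ Submodule.span (ZMod 2) (Set.range K') :=
        Submodule.subset_span ⟨_, rfl⟩
      have h5 : K i = K' i.succ - c i • P := by
        rw [hK', Fin.cons_succ, add_sub_cancel_right]
      rw [h5]
      exact Submodule.sub_mem _ h4 (Submodule.smul_mem _ _ hPs)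
    have hlt : Submodule.span (ZMod 2) (Set.range K) < Submodule.span (ZMod 2) (Set.range K') := by
      refine lt_of_le_of_ne hle fun heq => ?_
      rw [← heq] at hPs
      refine not_zf hxy hP ?_
      refine (Submodule.span_le.2 ?_ : Submodule.span (ZMod 2) (Set.range K) ≤ ZF a b F) hPs
      rintro _ ⟨i, rfl⟩
      exact hK i
    have h6 := Submodule.finrank_lt_finrank_of_lt hlt
    omega

/-- identification along a chain in one member of the family -/
theorem mac_id_mem {a b : D → X} {F : Finset D} {h : ℕ} {x y : X} (hxy : x ≠ y)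
    {P : D → ZMod 2} (hP : Chn a b F x y P) {k : ℕ} {K : Fin k → D → ZMod 2}
    (hK : ∀ i, K i ∈ ZF a b F) (h2 : ∀ e, (univ.filter (fun i => K i e ≠ 0)).card ≤ 2)
    (hr : Module.finrank (ZMod 2) (ZF a b F) ≤
      Module.finrank (ZMod 2) (Submodule.span (ZMod 2) (Set.range K)) + h)
    (j : Fin k) (hj : ∀ e, P e ≠ 0 → K j e ≠ 0) :
    Mac h (ctr x y ∘ a) (ctr x y ∘ b) F := by
  refine mac_id hxy hP hK h2 hr (fun i => if i = j then 1 else 0) fun e he => ?_
  have hje := hj e he
  have hsub : univ.filter (fun i => K i e + (if i = j then 1 else 0) * P e ≠ 0) ⊆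
      (univ.filter (fun i => K i e ≠ 0)).erase j := by
    intro i hi
    rw [mem_filter] at hi
    have hi2 := hi.2
    rw [mem_erase, mem_filter]
    by_cases hij : i = j
    · rw [if_pos hij, one_mul, hij] at hi2
      exact absurd (zmod2_add hje he) hi2
    · rw [if_neg hij, zero_mul, add_zero] at hi2
      exact ⟨hij, mem_univ _, hi2⟩
  have hm : j ∈ univ.filter (fun i => K i e ≠ 0) := mem_filter.2 ⟨mem_univ _, hje⟩
  refine (card_le_card hsub).trans ?_
  rw [card_erase_of_mem hm]
  have := h2 e
  omega

/-- identification along a chain all of whose edges are in at most one member of the family -/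
theorem mac_id_out {a b : D → X} {F : Finset D} {h : ℕ} {x y : X} (hxy : x ≠ y)
    {P : D → ZMod 2} (hP : Chn a b F x y P) {k : ℕ} {K : Fin k → D → ZMod 2}
    (hK : ∀ i, K i ∈ ZF a b F) (h2 : ∀ e, (univ.filter (fun i => K i e ≠ 0)).card ≤ 2)
    (hr : Module.finrank (ZMod 2) (ZF a b F) ≤
      Module.finrank (ZMod 2) (Submodule.span (ZMod 2) (Set.range K)) + h)
    (hj : ∀ e, P e ≠ 0 → (univ.filter (fun i => K i e ≠ 0)).card ≤ 1) :
    Mac h (ctr x y ∘ a) (ctr x y ∘ b) F := by
  refine mac_id hxy hP hK h2 hr (fun _ => 0) fun e he => ?_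
  simp only [zero_mul, add_zero]
  exact hj e he

end Pool.Agent.J4.H76.SG
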