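import Pool.Agent.J4.H76.SG.Cnt
import Pool.Agent.Y335.FL.Surf

set_option autoImplicit false
set_option linter.unusedSectionVars false

/-! # Nowhere-zero 5-flows in region intersection graphs -/

namespace Pool.Agent.J4.H76.SG

open Finset Pool.Agent.TH676.Z MacConx MacDelx Pool.Agent.Y358.IN Pool.Agent.Y335.FL

variable {X D : Type} [Fintype X] [DecidableEq X] [Fintype D] [DecidableEq D]
variable {V E : Type} [Fintype V] [DecidableEq V] [Fintype E] [DecidableEq E]

/-- `x` and `y` are joined by edges of `C` -/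
def Jd (src dst : E → V) (C : Finset E) (x y : V) : Prop :=
  Relation.EqvGen (fun p q => ∃ e ∈ C, src e = p ∧ dst e = q) x y

/-- `x` and `y` are equal or adjacent up to paths with edges of `C` -/
def Nr (src dst : E → V) (C : Finset E) (x y : V) : Prop :=
  ∃ x' y', Jd src dst C x x' ∧ Jd src dst C y y' ∧ (x' = y' ∨ Adj src dst x' y')

theorem Jd.ctr {src dst : E → V} {C : Finset E} {x y : V} (h : Jd src dst C x y) (u v : V) :
    Jd (ctr u v ∘ src) (ctr u v ∘ dst) C (ctr u v x) (ctr u v y) := by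
  unfold Jd at h ⊢
  induction h with
  | rel x y h =>
    obtain ⟨e, he, h1, h2⟩ := h
    exact Relation.EqvGen.rel _ _ ⟨e, he, congrArg _ h1, congrArg _ h2⟩
  | refl x => exact Relation.EqvGen.refl _
  | symm x y _ ih => exact Relation.EqvGen.symm _ _ ih
  | trans x y z _ _ ih1 ih2 => exact Relation.EqvGen.trans _ _ _ ih1 ih2

theorem Nr.ctr {src dst : E → V} {C : Finset E} {x y : V} (h : Nr src dst C x y) (u v : V) :
    Nr (ctr u v ∘ src) (ctr u v ∘ dst) C (ctr u v x) (ctr u v y) := by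
  obtain ⟨x', y', h1, h2, h3⟩ := h
  refine ⟨Pool.Agent.TH676.Z.ctr u v x', Pool.Agent.TH676.Z.ctr u v y', h1.ctr u v, h2.ctr u v, ?_⟩
  by_cases h4 : Pool.Agent.TH676.Z.ctr u v x' = Pool.Agent.TH676.Z.ctr u v y'
  · exact Or.inl h4
  · rcases h3 with h3 | h3
    · exact Or.inl (congrArg _ h3)
    · exact Or.inr (adj_ctr h3 h4)

/-- a chain of cycles with at most eleven new edges each -/
def Chain (src dst : E → V) (m : ℕ) (C : Fin m → Finset E) : Prop :=
  (∀ i, ∃ z : E → ZMod 5, (∀ v, bd src dst z v = 0) ∧ (∀ e, z e = 0 ∨ z e = 1 ∨ z e = -1) ∧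
      ∀ e, z e ≠ 0 ↔ e ∈ C i) ∧
    ∀ i, (C i \ (univ.filter (fun j => j < i)).biUnion C).card ≤ 11

theorem Chain.ctr {src dst : E → V} {m : ℕ} {C : Fin m → Finset E} (h : Chain src dst m C)
    {u v : V} (huv : u ≠ v) : Chain (ctr u v ∘ src) (ctr u v ∘ dst) m C := by
  refine ⟨fun i => ?_, h.2⟩
  obtain ⟨z, h1, h2⟩ := h.1 i
  refine ⟨z, fun w => ?_, h2⟩
  rw [Crit.bd_ctr src dst _ _ huv, h1, h1, h1]
  simp

/-- the class: after the deletion of at most `k` vertices the graph has a representation -/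
def ClR (X D : Type) [Fintype X] [DecidableEq X] [Fintype D] [DecidableEq D] (k h : ℕ)
    (src dst : E → V) : Prop :=
  ∃ (m : ℕ) (C : Fin m → Finset E), Chain src dst m C ∧
    ∃ T : Finset V, T.card ≤ k ∧ ∃ (a b : D → X) (F : Finset D) (L : X → Finset V),
      Rep src dst T (Nr src dst (univ.biUnion C)) h a b F L

theorem con_union {a b : D → X} {F : Finset D} {A B : Finset X} (hA : Con a b F A)
    (hB : Con a b F B) {x : X} (hxA : x ∈ A) (hxB : x ∈ B) : Con a b F (A ∪ B) := by
  intro C hC hne h1 h2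
  have cA : (C ∩ A).Nonempty → C ∩ A = A := fun hn => hA _ inter_subset_right hn
    (fun e he h3 h4 => mem_inter.2 ⟨h1 e he (mem_inter.1 h3).1 (mem_union_left _ h4), h4⟩)
    (fun e he h3 h4 => mem_inter.2 ⟨h2 e he (mem_inter.1 h3).1 (mem_union_left _ h4), h4⟩)
  have cB : (C ∩ B).Nonempty → C ∩ B = B := fun hn => hB _ inter_subset_right hn
    (fun e he h3 h4 => mem_inter.2 ⟨h1 e he (mem_inter.1 h3).1 (mem_union_right _ h4), h4⟩)
    (fun e he h3 h4 => mem_inter.2 ⟨h2 e he (mem_inter.1 h3).1 (mem_union_right _ h4), h4⟩)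
  have hx : x ∈ C := by
    obtain ⟨y, hy⟩ := hne
    rcases mem_union.1 (hC hy) with h | h
    · have := cA ⟨y, mem_inter.2 ⟨hy, h⟩⟩
      rw [← this] at hxA
      exact (mem_inter.1 hxA).1
    · have := cB ⟨y, mem_inter.2 ⟨hy, h⟩⟩
      rw [← this] at hxB
      exact (mem_inter.1 hxB).1
  have h3 := cA ⟨x, mem_inter.2 ⟨hx, hxA⟩⟩
  have h4 := cB ⟨x, mem_inter.2 ⟨hx, hxB⟩⟩
  refine subset_antisymm hC (union_subset ?_ ?_)
  · rw [← h3]; exact inter_subset_left
  · rw [← h4]; exact inter_subset_left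

theorem con_empty {a b : D → X} {F : Finset D} {A : Finset X} (hA : ∀ x, x ∉ A) :
    Con a b F A := by
  intro B hB hne
  obtain ⟨x, hx⟩ := hne
  exact absurd (hB hx) (hA x)

theorem ccR (k h : ℕ) : CC (V := V) (E := E) (ClR X D k h) := by
  classical
  intro src dst e hcl hne
  obtain ⟨m, C, hch, T, hT, a, b, F, L, hR⟩ := hcl
  set u := src e with hu
  set v := dst e with hv
  have hnv : ∀ w, ctr u v w ≠ v := by
    intro w hw
    by_cases h1 : w = v
    · rw [h1, ctr_v] at hw; exact hne hw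
    · rw [ctr_of_ne h1] at hw; exact h1 hw
  refine ⟨m, C, hch.ctr hne, T.image (ctr u v), card_image_le.trans hT, a, b, F,
    fun x => (L x).image (ctr u v) \ T.image (ctr u v), ?_, ?_, ?_, ?_, hR.mac⟩
  · intro x w hw
    exact (mem_sdiff.1 hw).2
  · intro x p hp q hq hpq
    obtain ⟨p', hp', rfl⟩ := mem_image.1 (mem_sdiff.1 hp).1
    obtain ⟨q', hq', rfl⟩ := mem_image.1 (mem_sdiff.1 hq).1
    exact (hR.cl x p' hp' q' hq' (fun h => hpq (by rw [h]))).ctr u v
  · intro d h1 h2 h3
    obtain ⟨x, hx1, hx2⟩ := hR.ed d (fun h => h1 (congrArg _ h))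
      (fun h => h2 (mem_image_of_mem _ h)) (fun h => h3 (mem_image_of_mem _ h))
    exact ⟨x, mem_sdiff.2 ⟨mem_image_of_mem _ hx1, h2⟩, mem_sdiff.2 ⟨mem_image_of_mem _ hx2, h3⟩⟩
  · intro w
    by_cases hwT : w ∈ T.image (ctr u v)
    · refine con_empty fun x hx => ?_
      rw [mem_Rg] at hx
      exact (mem_sdiff.1 hx).2 hwT
    · by_cases hwv : w = v
      · refine con_empty fun x hx => ?_
        rw [mem_Rg] at hx
        obtain ⟨w', _, hw'⟩ := mem_image.1 (mem_sdiff.1 hx).1
        exact hnv w' (hw'.trans hwv)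
      · by_cases hwu : w = u
        · have huT : u ∉ T := fun h => hwT (mem_image.2 ⟨u, h, by rw [ctr_u _ _ hne, hwu]⟩)
          have hvT : v ∉ T := fun h => hwT (mem_image.2 ⟨v, h, by rw [ctr_v, hwu]⟩)
          obtain ⟨x, hx1, hx2⟩ := hR.ed e hne huT hvT
          have h5 := con_union (hR.con u) (hR.con v) (mem_Rg.2 hx1) (mem_Rg.2 hx2)
          convert h5 using 1
          ext y
          rw [mem_Rg, mem_union, mem_Rg, mem_Rg, mem_sdiff, mem_image]
          constructor
          · rintro ⟨⟨w', h6, h7⟩, _⟩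
            by_cases h8 : w' = v
            · exact Or.inr (h8 ▸ h6)
            · rw [ctr_of_ne h8] at h7
              exact Or.inl (by rw [← hwu, ← h7]; exact h6)
          · intro h6
            refine ⟨?_, hwT⟩
            rcases h6 with h6 | h6
            · exact ⟨u, h6, by rw [ctr_u _ _ hne, hwu]⟩
            · exact ⟨v, h6, by rw [ctr_v, hwu]⟩
        · convert hR.con w using 1
          ext y
          rw [mem_Rg, mem_Rg, mem_sdiff, mem_image]
          constructor
          · rintro ⟨⟨w', h6, h7⟩, _⟩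
            by_cases h8 : w' = v
            · rw [h8, ctr_v] at h7
              exact absurd h7.symm hwu
            · rw [ctr_of_ne h8] at h7
              rw [← h7]; exact h6
          · intro h6
            exact ⟨⟨w, h6, ctr_of_ne hwv⟩, hwT⟩

theorem Nr.adj {src dst : E → V} {C : Finset E} (hC : ∀ e ∈ C, src e = dst e) {x y : V}
    (h : Nr src dst C x y) (hxy : x ≠ y) : Adj src dst x y := by
  obtain ⟨x', y', h1, h2, h3⟩ := h
  have key : ∀ {p q : V}, Jd src dst C p q → p = q := by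
    intro p q h
    unfold Jd at h
    induction h with
    | rel x y h =>
      obtain ⟨e, he, h1, h2⟩ := h
      rw [← h1, ← h2, hC e he]
    | refl x => rfl
    | symm x y _ ih => exact ih.symm
    | trans x y z _ _ ih1 ih2 => exact ih1.trans ih2
  rcases h3 with h3 | h3
  · exact absurd ((key h1).trans (h3.trans (key h2).symm)) hxy
  · rw [key h1, key h2]; exact h3

/-- **Main theorem** -/
theorem flow_of_ClR (hc : St_contract) (hl : St_lift) (hev : St_even) (hE : Edge62') {k h : ℕ} (hk : k ≤ 18)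
    (hkh : 7 * k + 6 * h ≤ 137) (src dst : E → V) (hcl : ClR X D k h src dst)
    (hbr : Br src dst ∅ ∅) : FlowOn src dst ∅ ∅ := by
  classical
  by_contra hn
  obtain ⟨s, d, ⟨m, C, hch, T, hT, a, b, F, L, hR⟩, hM⟩ := exists_minC (ccR k h) src dst hcl hbr hn
  have h3 := threeC hc hM
  have hG := girthC hc hM
  have hNP : NoPar s d := fun e e' x y hxy h1 h2 => no_par hc hM hxy h1 h2
  have hCl : ∀ e ∈ univ.biUnion C, s e = d e := by
    intro e he
    by_contra hne
    exact hM.nf (hl V E s d m C hch.1 hch.2 (hM.crit _ ⟨e, he, hne⟩))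
  by_cases hl : ∀ e, s e = d e
  · exact hM.nf (flow_of_loops hl)
  push Not at hl
  obtain ⟨e0, he0⟩ := hl
  obtain ⟨h63, h189, _⟩ := Surfx.common hE hG h3 hNP he0 T (by omega)
  have hR' : Rep s d T (Adj s d) h a b F L :=
    ⟨hR.out, fun x u hu v hv huv => (hR.cl x u hu v hv huv).adj hCl huv, hR.ed, hR.con, hR.mac⟩
  obtain ⟨a', b', F', L', hR2⟩ := exists_min hR'
  have tri : ∀ u v w, Adj s d u v → Adj s d v w → Adj s d w u → False := by
    intro u v w h1 h2 h4
    refine hG 0 (by norm_num) ![u, v, w] ?_ ?_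
    · intro i j hij
      fin_cases i <;> fin_cases j <;>
        simp_all [h1.1, h2.1, h4.1, h1.1.symm, h2.1.symm, h4.1.symm]
    · intro i
      fin_cases i
      · exact h1
      · exact h2
      · exact h4
  have hg : ∀ x ∈ ZF s d (ES s d T), x ≠ 0 → 12 ≤ (univ.filter (fun e => x e ≠ 0)).card :=
    hev V E s d (ES s d T) 12 hG hNP fun e he => (mem_ES.1 he).1
  obtain ⟨r, K, hK, hK2, hli, hr⟩ := mac_indep hR2.mac
  have hES : (ES s d T).Nonempty := by
    rw [nonempty_iff_ne_empty]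
    intro h0
    rw [h0, card_empty, zero_add] at h63 h189
    have : T.card * ∑ x ∈ T, (Ns s d x).card ≤ 18 * ∑ x ∈ T, (Ns s d x).card :=
      Nat.mul_le_mul_right _ (hT.trans hk)
    omega
  have e3 := edX hR2 tri hNP
  have hX2 : (X2 L').Nonempty := by
    rw [← card_pos] at hES ⊢
    omega
  exact num (dimX hR2 tri hX2) (lower hR2 tri) e3
    (facesM hR2 tri hNP hg hK hK2 hli hr) hr (degS V E s d T h3)
    (h63.trans (Nat.mul_le_mul_right _ hT)) h189 hk hkh

end Pool.Agent.J4.H76.SG
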