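import Pool.Agent.J4.H76.SG.Pre

set_option autoImplicit false
set_option linter.unusedSectionVars false

/-! # Minimal representations of graphs without triangles -/

namespace Pool.Agent.J4.H76.SG

open Finset Pool.Agent.TH676.Z MacConx MacDelx Pool.Agent.Y358.IN

variable {X D : Type} [Fintype X] [DecidableEq X] [Fintype D] [DecidableEq D]
variable {V E : Type} [Fintype V] [DecidableEq V] [Fintype E] [DecidableEq E]

theorem zmod2_cases (c : ZMod 2) : c = 0 ∨ c = 1 := by
  revert c; decide

theorem zmod2_one {c : ZMod 2} (h : c ≠ 0) : c = 1 := by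
  revert c; decide

/-- contraction of an edge of the host graph -/
theorem mac_ctr {a b : D → X} {F : Finset D} {h : ℕ} (hM : Mac h a b F) {e : D} (he : e ∈ F)
    (hne : a e ≠ b e) : Mac h (ctr (a e) (b e) ∘ a) (ctr (a e) (b e) ∘ b) F := by
  obtain ⟨k, K, h1, h2, h3⟩ := hM
  have hP : Chn a b F (a e) (b e) (Pi.single e 1) := by
    refine ⟨fun d hd => ?_, fun v => ?_⟩
    · rw [Pi.single_eq_of_ne]
      rintro rfl
      exact hd he
    · rw [bd2_single]
      simp only [eq_comm]
  have hs : ∀ d, (Pi.single e (1 : ZMod 2) : D → ZMod 2) d ≠ 0 → d = e := by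
    intro d hd
    by_contra h
    exact hd (Pi.single_eq_of_ne h _)
  by_cases hj : ∃ j, K j e ≠ 0
  · obtain ⟨j, hj⟩ := hj
    exact mac_id_mem hne hP h1 h2 h3 j fun d hd => (hs d hd) ▸ hj
  · push Not at hj
    refine mac_id_out hne hP h1 h2 h3 fun d hd => ?_
    rw [hs d hd]
    simp [hj]

section

variable {src dst : E → V} {T : Finset V} {h : ℕ} {a b : D → X} {F : Finset D} {L : X → Finset V}

theorem card_two (hR : MinRep src dst T (Adj src dst) h a b F L)
    (tri : ∀ u v w, Adj src dst u v → Adj src dst v w → Adj src dst w u → False) (x : X) :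
    (L x).card ≤ 2 := by
  by_contra hcon
  push Not at hcon
  obtain ⟨u, hu, v, hv, w, hw, huv, huw, hvw⟩ := two_lt_card.1 hcon
  exact tri u v w (hR.cl x u hu v hv huv) (hR.cl x v hv w hw hvw) (hR.cl x w hw u hu huw.symm)

/-- the labels at the ends of an edge of the host graph -/
theorem ends (hR : MinRep src dst T (Adj src dst) h a b F L)
    (tri : ∀ u v w, Adj src dst u v → Adj src dst v w → Adj src dst w u → False) {e : D}
    (he : e ∈ F) : ∃ u v w, L (a e) = {u, v} ∧ L (b e) = {u, w} ∧ u ≠ v ∧ u ≠ w ∧ v ≠ w := by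
  have hne : a e ≠ b e := by
    intro hab
    refine hR.no_del he fun u B hB hBn h1 h2 => hR.con u B hB hBn ?_ ?_
    · intro d hd hda hdb
      by_cases hde : d = e
      · rw [hde, ← hab, ← hde]
        exact hda
      · exact h1 d (mem_erase.2 ⟨hde, hd⟩) hda hdb
    · intro d hd hda hdb
      by_cases hde : d = e
      · rw [hde, hab, ← hde]
        exact hda
      · exact h2 d (mem_erase.2 ⟨hde, hd⟩) hda hdb
  have hcom : ∃ u, u ∈ L (a e) ∧ u ∈ L (b e) := by
    by_contra hno
    push Not at hno
    refine hR.no_del he fun u B hB hBn h1 h2 => hR.con u B hB hBn ?_ ?_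
    · intro d hd hda hdb
      by_cases hde : d = e
      · subst hde
        exact absurd (mem_Rg.1 hdb) (hno u (mem_Rg.1 (hB hda)))
      · exact h1 d (mem_erase.2 ⟨hde, hd⟩) hda hdb
    · intro d hd hda hdb
      by_cases hde : d = e
      · subst hde
        exact absurd (mem_Rg.1 (hB hda)) (hno u (mem_Rg.1 hdb))
      · exact h2 d (mem_erase.2 ⟨hde, hd⟩) hda hdb
  obtain ⟨u, hu1, hu2⟩ := hcom
  have hncl : ¬ ∀ u ∈ L (a e) ∪ L (b e), ∀ v ∈ L (a e) ∪ L (b e), u ≠ v → Adj src dst u v :=
    fun hcl => hR.no_id hne hcl ⟨u, hu1⟩ ⟨u, hu2⟩ (mac_ctr hR.mac he hne)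
  push Not at hncl
  obtain ⟨v, hv, w, hw, hvw, hna⟩ := hncl
  have key : ∀ v w, v ≠ w → ¬ Adj src dst v w → v ∈ L (a e) → w ∈ L (b e) →
      ∃ u v w, L (a e) = {u, v} ∧ L (b e) = {u, w} ∧ u ≠ v ∧ u ≠ w ∧ v ≠ w := by
    intro v w hvw hna hv hw
    have huv : u ≠ v := by
      rintro rfl
      exact hna (hR.cl _ u hu2 w hw hvw)
    have huw : u ≠ w := by
      rintro rfl
      exact hna (hR.cl _ v hv u hu1 hvw)
    refine ⟨u, v, w, ?_, ?_, huv, huw, hvw⟩
    · refine (eq_of_subset_of_card_le ?_ ?_).symm
      · intro x hx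
        rcases mem_insert.1 hx with rfl | hx
        · exact hu1
        · rw [mem_singleton.1 hx]; exact hv
      · rw [card_pair huv]
        exact card_two hR tri _
    · refine (eq_of_subset_of_card_le ?_ ?_).symm
      · intro x hx
        rcases mem_insert.1 hx with rfl | hx
        · exact hu2
        · rw [mem_singleton.1 hx]; exact hw
      · rw [card_pair huw]
        exact card_two hR tri _
  rcases mem_union.1 hv with hv | hv <;> rcases mem_union.1 hw with hw | hw
  · exact absurd (hR.cl _ v hv w hw hvw) hna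
  · exact key v w hvw hna hv hw
  · exact key w v hvw.symm (fun h => hna (GiAux.adj_symm h)) hw hv
  · exact absurd (hR.cl _ v hv w hw hvw) hna

theorem uniq (hR : MinRep src dst T (Adj src dst) h a b F L)
    (tri : ∀ u v w, Adj src dst u v → Adj src dst v w → Adj src dst w u → False) {e : D}
    (he : e ∈ F) {u v : V} (h1 : u ∈ L (a e)) (h2 : u ∈ L (b e)) (h3 : v ∈ L (a e))
    (h4 : v ∈ L (b e)) : u = v := by
  obtain ⟨x, y, z, e1, e2, hxy, hxz, hyz⟩ := ends hR tri he
  rw [e1, mem_insert, mem_singleton] at h1 h3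
  rw [e2, mem_insert, mem_singleton] at h2 h4
  have hu : u = x := by
    rcases h1 with h1 | h1
    · exact h1
    · rcases h2 with h2 | h2
      · exact h2
      · exact absurd (h1.symm.trans h2) hyz
  have hv : v = x := by
    rcases h3 with h3 | h3
    · exact h3
    · rcases h4 with h4 | h4
      · exact h4
      · exact absurd (h3.symm.trans h4) hyz
  rw [hu, hv]

/-- every end of an edge has exactly two labels -/
theorem end_two (hR : MinRep src dst T (Adj src dst) h a b F L)
    (tri : ∀ u v w, Adj src dst u v → Adj src dst v w → Adj src dst w u → False) {e : D}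
    (he : e ∈ F) : (L (a e)).card = 2 ∧ (L (b e)).card = 2 := by
  obtain ⟨x, y, z, e1, e2, hxy, hxz, hyz⟩ := ends hR tri he
  rw [e1, e2, card_pair hxy, card_pair hxz]
  exact ⟨rfl, rfl⟩

/-- the edges of one region contain no circuit -/
theorem forest (hR : MinRep src dst T (Adj src dst) h a b F L)
    (tri : ∀ u v w, Adj src dst u v → Adj src dst v w → Adj src dst w u → False) (u : V)
    (w : D → ZMod 2) (hw : ∀ e, w e ≠ 0 → e ∈ F ∧ u ∈ L (a e) ∧ u ∈ L (b e))
    (h0 : ∀ x, bd2 a b w x = 0) : w = 0 := by
  by_contra hne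
  obtain ⟨e, he⟩ : ∃ e, w e ≠ 0 := by
    by_contra hno
    push Not at hno
    exact hne (funext hno)
  obtain ⟨heF, hea, heb⟩ := hw e he
  refine hR.no_del heF fun u' B hB hBn h1 h2 => ?_
  by_cases hu : u' = u
  · subst hu
    by_cases hcr : a e ∈ B ↔ b e ∈ B
    · refine hR.con u' B hB hBn ?_ ?_
      · intro d hd hda hdb
        by_cases hde : d = e
        · rw [hde] at hda ⊢
          exact hcr.1 hda
        · exact h1 d (mem_erase.2 ⟨hde, hd⟩) hda hdb
      · intro d hd hda hdb
        by_cases hde : d = e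
        · rw [hde] at hda ⊢
          exact hcr.2 hda
        · exact h2 d (mem_erase.2 ⟨hde, hd⟩) hda hdb
    · exfalso
      have hs : ∑ x ∈ B, bd2 a b w x = w e := by
        unfold bd2
        rw [sum_comm]
        have h3 : ∀ d, ∑ x ∈ B, ((if a d = x then w d else 0) + (if b d = x then w d else 0)) =
            (if a d ∈ B then w d else 0) + (if b d ∈ B then w d else 0) := by
          intro d
          rw [sum_add_distrib, Finset.sum_ite_eq, Finset.sum_ite_eq]
        rw [sum_congr rfl fun d _ => h3 d, sum_eq_single e]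
        · by_cases hae : a e ∈ B
          · have hbe : b e ∉ B := fun h => hcr ⟨fun _ => h, fun _ => hae⟩
            rw [if_pos hae, if_neg hbe, add_zero]
          · have hbe : b e ∈ B := by
              by_contra h
              exact hcr ⟨fun h' => absurd h' hae, fun h' => absurd h' h⟩
            rw [if_neg hae, if_pos hbe, zero_add]
        · intro d _ hde
          by_cases hwd : w d = 0
          · simp [hwd]
          · obtain ⟨hdF, hda, hdb⟩ := hw d hwd
            have hmem : d ∈ F.erase e := mem_erase.2 ⟨hde, hdF⟩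
            by_cases hB1 : a d ∈ B
            · have hB2 : b d ∈ B := h1 d hmem hB1 (mem_Rg.2 hdb)
              rw [if_pos hB1, if_pos hB2]
              exact self_add _
            · have hB2 : b d ∉ B := fun h => hB1 (h2 d hmem h (mem_Rg.2 hda))
              rw [if_neg hB1, if_neg hB2, add_zero]
        · intro h; exact absurd (mem_univ e) h
      rw [sum_congr rfl fun x _ => h0 x, sum_const_zero] at hs
      exact he hs.symm
  · refine hR.con u' B hB hBn ?_ ?_
    · intro d hd hda hdb
      by_cases hde : d = e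
      · subst hde
        exact absurd (uniq hR tri heF (mem_Rg.1 (hB hda)) (mem_Rg.1 hdb) hea heb) hu
      · exact h1 d (mem_erase.2 ⟨hde, hd⟩) hda hdb
    · intro d hd hda hdb
      by_cases hde : d = e
      · subst hde
        exact absurd (uniq hR tri heF (mem_Rg.1 hdb) (mem_Rg.1 (hB hda)) hea heb) hu
      · exact h2 d (mem_erase.2 ⟨hde, hd⟩) hda hdb

end

end Pool.Agent.J4.H76.SG
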