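import Pool.Agent.J4.H76.SG.Par

set_option autoImplicit false
set_option linter.unusedSectionVars false

/-! # Short elements of the cycle space of the host graph of a minimal representation -/

namespace Pool.Agent.J4.H76.SG

open Finset Pool.Agent.TH676.Z MacConx MacDelx Pool.Agent.Y358.IN

variable {X D : Type} [Fintype X] [DecidableEq X] [Fintype D] [DecidableEq D]
variable {V E : Type} [Fintype V] [DecidableEq V] [Fintype E] [DecidableEq E]

/-- `x` is joined to `x0` by a chain of edges of `z` -/
def Rch (a b : D → X) (z : D → ZMod 2) (x0 x : X) : Prop :=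
  ∃ P : D → ZMod 2, (∀ e, P e ≠ 0 → z e ≠ 0) ∧
    ∀ v, bd2 a b P v = (if v = x0 then 1 else 0) + (if v = x then 1 else 0)

theorem Rch.refl (a b : D → X) (z : D → ZMod 2) (x0 : X) : Rch a b z x0 x0 := by
  refine ⟨0, fun e h => absurd rfl h, fun v => ?_⟩
  rw [self_add]
  unfold bd2
  simp

theorem Rch.step {a b : D → X} {z : D → ZMod 2} {x0 x y : X} (h : Rch a b z x0 x) {e : D}
    (he : z e ≠ 0) (hxy : (a e = x ∧ b e = y) ∨ (a e = y ∧ b e = x)) : Rch a b z x0 y := by
  obtain ⟨P, h1, h2⟩ := h
  refine ⟨P + Pi.single e 1, fun d hd => ?_, fun v => ?_⟩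
  · by_cases hde : d = e
    · rw [hde]; exact he
    · rw [Pi.add_apply, Pi.single_eq_of_ne hde, add_zero] at hd
      exact h1 d hd
  · rw [bd2_add, h2, bd2_single]
    have key : ∀ c : ZMod 2, c + c = 0 := self_add
    rcases hxy with ⟨h3, h4⟩ | ⟨h3, h4⟩
    · rw [h3, h4]
      simp only [eq_comm (a := x), eq_comm (a := y)]
      have := key (if v = x then 1 else 0)
      linear_combination this
    · rw [h3, h4]
      simp only [eq_comm (a := x), eq_comm (a := y)]
      have := key (if v = x then 1 else 0)
      linear_combination this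

/-- the sum of the boundary is zero -/
theorem sum_bd (a b : D → X) (w : D → ZMod 2) : ∑ x, bd2 a b w x = 0 := by
  unfold bd2
  rw [sum_comm]
  refine sum_eq_zero fun d _ => ?_
  rw [sum_add_distrib, Finset.sum_ite_eq, Finset.sum_ite_eq, if_pos (mem_univ _),
    if_pos (mem_univ _)]
  exact self_add _

theorem bd_ne {a b : D → X} {w : D → ZMod 2} {x : X} (h : bd2 a b w x ≠ 0) :
    ∃ e, w e ≠ 0 ∧ (a e = x ∨ b e = x) := by
  by_contra hno
  push Not at hno
  apply h
  unfold bd2
  refine sum_eq_zero fun e _ => ?_
  by_cases he : w e = 0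
  · simp [he]
  · obtain ⟨h1, h2⟩ := hno e he
    rw [if_neg h1, if_neg h2, add_zero]

section

variable {src dst : E → V} {T : Finset V} {h : ℕ} {a b : D → X} {F : Finset D} {L : X → Finset V}

/-- the edges of `z` in the region `u` -/
def zu (a b : D → X) (L : X → Finset V) (z : D → ZMod 2) (u : V) (e : D) : ZMod 2 :=
  if u ∈ L (a e) ∧ u ∈ L (b e) then z e else 0

theorem zu_ne {z : D → ZMod 2} {u : V} {e : D} (h : zu a b L z u e ≠ 0) :
    z e ≠ 0 ∧ u ∈ L (a e) ∧ u ∈ L (b e) := by
  unfold zu at h
  split_ifs at h with h1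
  · exact ⟨h, h1⟩
  · exact absurd rfl h

/-- at a vertex with the labels `u`, `v` the parities of `u` and `v` agree -/
theorem par_eq (hR : MinRep src dst T (Adj src dst) h a b F L)
    (tri : ∀ u v w, Adj src dst u v → Adj src dst v w → Adj src dst w u → False)
    {z : D → ZMod 2} (hz : z ∈ ZF a b F) {x : X} {u v : V} (huv : u ≠ v) (hx : L x = {u, v}) :
    bd2 a b (zu a b L z u) x = bd2 a b (zu a b L z v) x := by
  have h1 : bd2 a b (zu a b L z u) x + bd2 a b (zu a b L z v) x = bd2 a b z x := by
    unfold bd2
    rw [← sum_add_distrib]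
    refine sum_congr rfl fun e _ => ?_
    by_cases hze : z e = 0
    · simp [zu, hze]
    · have heF : e ∈ F := by
        by_contra h
        exact hze (hz.1 e h)
      have key : (a e = x ∨ b e = x) → zu a b L z u e + zu a b L z v e = z e := by
        intro hex
        obtain ⟨p, q, r, e1, e2, hpq, hpr, hqr⟩ := ends hR tri heF
        have hp1 : p ∈ L (a e) := by rw [e1]; exact mem_insert_self _ _
        have hp2 : p ∈ L (b e) := by rw [e2]; exact mem_insert_self _ _
        have hpx : p ∈ L x := by
          rcases hex with hex | hex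
          · rw [← hex]; exact hp1
          · rw [← hex]; exact hp2
        rw [hx, mem_insert, mem_singleton] at hpx
        rcases hpx with hpx | hpx
        · have hv : ¬ (v ∈ L (a e) ∧ v ∈ L (b e)) := by
            rintro ⟨h1, h2⟩
            exact huv (hpx.symm.trans (uniq hR tri heF hp1 hp2 h1 h2))
          unfold zu
          rw [if_neg hv, ← hpx, if_pos ⟨hp1, hp2⟩, add_zero]
        · have hu : ¬ (u ∈ L (a e) ∧ u ∈ L (b e)) := by
            rintro ⟨h1, h2⟩
            exact huv ((hpx.symm.trans (uniq hR tri heF hp1 hp2 h1 h2)).symm)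
          unfold zu
          rw [if_neg hu, ← hpx, if_pos ⟨hp1, hp2⟩, zero_add]
      by_cases h1 : a e = x
      · have hk := key (Or.inl h1)
        by_cases h2 : b e = x
        · rw [if_pos h1, if_pos h1, if_pos h1, if_pos h2, if_pos h2, if_pos h2]
          linear_combination 2 * hk
        · rw [if_pos h1, if_pos h1, if_pos h1, if_neg h2, if_neg h2, if_neg h2]
          linear_combination hk
      · by_cases h2 : b e = x
        · have hk := key (Or.inr h2)
          rw [if_neg h1, if_neg h1, if_neg h1, if_pos h2, if_pos h2, if_pos h2]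
          linear_combination hk
        · rw [if_neg h1, if_neg h1, if_neg h1, if_neg h2, if_neg h2, if_neg h2]
          simp
  rw [hz.2 x] at h1
  generalize bd2 a b (zu a b L z u) x = p at h1
  generalize bd2 a b (zu a b L z v) x = q at h1
  revert p q; decide

/-- where the boundary of a part is not zero there are exactly two labels -/
theorem lab (hR : MinRep src dst T (Adj src dst) h a b F L)
    (tri : ∀ u v w, Adj src dst u v → Adj src dst v w → Adj src dst w u → False)
    {z : D → ZMod 2} (hz : z ∈ ZF a b F) {x : X} {u : V}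
    (hx : bd2 a b (zu a b L z u) x ≠ 0) :
    ∃ v, u ≠ v ∧ L x = {u, v} ∧ Adj src dst u v := by
  obtain ⟨e, he, hex⟩ := bd_ne hx
  obtain ⟨hze, hu1, hu2⟩ := zu_ne he
  have heF : e ∈ F := by
    by_contra h
    exact hze (hz.1 e h)
  obtain ⟨c1, c2⟩ := end_two hR tri heF
  have hux : u ∈ L x := by
    rcases hex with h | h
    · rw [← h]; exact hu1
    · rw [← h]; exact hu2
  have hc : (L x).card = 2 := by
    rcases hex with h | h
    · rw [← h]; exact c1
    · rw [← h]; exact c2
  obtain ⟨v, hv⟩ : ((L x).erase u).Nonempty := by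
    rw [← card_pos, card_erase_of_mem hux]; omega
  obtain ⟨hvu, hvx⟩ := mem_erase.1 hv
  refine ⟨v, hvu.symm, ?_, hR.cl x u hux v hvx hvu.symm⟩
  refine (eq_of_subset_of_card_le ?_ ?_).symm
  · intro y hy
    rcases mem_insert.1 hy with rfl | hy
    · exact hux
    · rw [mem_singleton.1 hy]; exact hvx
  · rw [card_pair hvu.symm, hc]

/-- the image in the cycle space of the graph -/
def psi (src dst : E → V) (T : Finset V) (a b : D → X) (L : X → Finset V) (z : D → ZMod 2)
    (e : E) : ZMod 2 :=
  if e ∈ ES src dst T then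
    ∑ x ∈ univ.filter (fun x => L x = {src e, dst e}), bd2 a b (zu a b L z (src e)) x
  else 0

theorem mem_ES {src dst : E → V} {T : Finset V} {e : E} :
    e ∈ ES src dst T ↔ src e ≠ dst e ∧ src e ∉ T ∧ dst e ∉ T := by
  simp [ES]

theorem psi_dst (hR : MinRep src dst T (Adj src dst) h a b F L)
    (tri : ∀ u v w, Adj src dst u v → Adj src dst v w → Adj src dst w u → False)
    {z : D → ZMod 2} (hz : z ∈ ZF a b F) {e : E} (he : e ∈ ES src dst T) :
    psi src dst T a b L z e =
      ∑ x ∈ univ.filter (fun x => L x = {src e, dst e}), bd2 a b (zu a b L z (dst e)) x := by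
  unfold psi
  rw [if_pos he]
  exact sum_congr rfl fun x hx => par_eq hR tri hz (mem_ES.1 he).1 (mem_filter.1 hx).2

theorem psi_mem (hR : MinRep src dst T (Adj src dst) h a b F L)
    (tri : ∀ u v w, Adj src dst u v → Adj src dst v w → Adj src dst w u → False)
    (hNP : NoPar src dst) {z : D → ZMod 2} (hz : z ∈ ZF a b F) :
    psi src dst T a b L z ∈ ZF src dst (ES src dst T) := by
  refine ⟨fun e he => if_neg he, fun u => ?_⟩
  have h1 : ∀ e, ((if src e = u then psi src dst T a b L z e else 0) +
      (if dst e = u then psi src dst T a b L z e else 0)) =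
      ∑ x, if (e ∈ ES src dst T ∧ (src e = u ∨ dst e = u) ∧ L x = {src e, dst e}) then
        bd2 a b (zu a b L z u) x else 0 := by
    intro e
    by_cases he : e ∈ ES src dst T
    · have hne := (mem_ES.1 he).1
      by_cases hs : src e = u
      · have hd : dst e ≠ u := fun h => hne (hs.trans h.symm)
        rw [if_pos hs, if_neg hd, add_zero]
        unfold psi
        rw [if_pos he, sum_filter]
        refine sum_congr rfl fun x _ => ?_
        by_cases hx : L x = {src e, dst e}
        · rw [if_pos hx, if_pos ⟨he, Or.inl hs, hx⟩, hs]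
        · rw [if_neg hx, if_neg (fun h => hx h.2.2)]
      · by_cases hd : dst e = u
        · rw [if_neg hs, if_pos hd, zero_add, psi_dst hR tri hz he, sum_filter]
          refine sum_congr rfl fun x _ => ?_
          by_cases hx : L x = {src e, dst e}
          · rw [if_pos hx, if_pos ⟨he, Or.inr hd, hx⟩, hd]
          · rw [if_neg hx, if_neg (fun h => hx h.2.2)]
        · rw [if_neg hs, if_neg hd, add_zero]
          symm
          refine sum_eq_zero fun x _ => if_neg ?_
          rintro ⟨_, h | h, _⟩
          · exact hs h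
          · exact hd h
    · have : psi src dst T a b L z e = 0 := if_neg he
      rw [this, ite_self, ite_self, add_zero]
      symm
      exact sum_eq_zero fun x _ => if_neg fun h => he h.1
  unfold bd2 at h1 ⊢
  rw [sum_congr rfl fun e _ => h1 e, sum_comm]
  have h2 : ∀ x, (∑ e, if (e ∈ ES src dst T ∧ (src e = u ∨ dst e = u) ∧ L x = {src e, dst e}) then
        bd2 a b (zu a b L z u) x else 0) = bd2 a b (zu a b L z u) x := by
    intro x
    by_cases hx : bd2 a b (zu a b L z u) x = 0
    · simp [hx]
    · obtain ⟨v, huv, hLx, hne, e, he⟩ := lab hR tri hz hx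
      have huT : u ∉ T := hR.out x u (by rw [hLx]; exact mem_insert_self _ _)
      have hvT : v ∉ T := hR.out x v (by rw [hLx]; exact mem_insert_of_mem (mem_singleton_self _))
      have heES : e ∈ ES src dst T := by
        rw [mem_ES]
        rcases he with ⟨h1, h2⟩ | ⟨h1, h2⟩
        · rw [h1, h2]; exact ⟨huv, huT, hvT⟩
        · rw [h1, h2]; exact ⟨huv.symm, hvT, huT⟩
      rw [sum_eq_single e]
      · rw [if_pos]
        refine ⟨heES, ?_, ?_⟩
        · rcases he with ⟨h1, h2⟩ | ⟨h1, h2⟩
          · exact Or.inl h1
          · exact Or.inr h2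
        · rw [hLx]
          rcases he with ⟨h1, h2⟩ | ⟨h1, h2⟩
          · rw [h1, h2]
          · rw [h1, h2, pair_comm]
      · intro d _ hde
        rw [if_neg]
        rintro ⟨hd1, hd2, hd3⟩
        apply hde
        refine hNP d e u v huv ?_ he
        have hdne := (mem_ES.1 hd1).1
        rw [hLx] at hd3
        have hs : src d ∈ ({u, v} : Finset V) := by rw [hd3]; exact mem_insert_self _ _
        have hd' : dst d ∈ ({u, v} : Finset V) := by
          rw [hd3]; exact mem_insert_of_mem (mem_singleton_self _)
        rw [mem_insert, mem_singleton] at hs hd'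
        rcases hs with hs | hs <;> rcases hd' with hd' | hd'
        · exact absurd (hs.trans hd'.symm) hdne
        · exact Or.inl ⟨hs, hd'⟩
        · exact Or.inr ⟨hs, hd'⟩
        · exact absurd (hs.trans hd'.symm) hdne
      · intro h; exact absurd (mem_univ e) h
  have h3 := sum_bd a b (zu a b L z u)
  rw [← sum_congr rfl fun x _ => h2 x] at h3
  exact h3

end

end Pool.Agent.J4.H76.SG
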