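import Pool.Agent.J4.H76.SG.Psi

set_option autoImplicit false
set_option linter.unusedSectionVars false

/-! # Two vertices with the same labels on a short element of the cycle space -/

namespace Pool.Agent.J4.H76.SG

open Finset Pool.Agent.TH676.Z MacConx MacDelx Pool.Agent.Y358.IN

variable {X D : Type} [Fintype X] [DecidableEq X] [Fintype D] [DecidableEq D]
variable {V E : Type} [Fintype V] [DecidableEq V] [Fintype E] [DecidableEq E]
variable {src dst : E → V} {T : Finset V} {h : ℕ} {a b : D → X} {F : Finset D} {L : X → Finset V}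

theorem pair_edge {x y u v : V} (hne : x ≠ y) (h : ({x, y} : Finset V) = {u, v}) :
    (x = u ∧ y = v) ∨ (x = v ∧ y = u) := by
  have hs : x ∈ ({u, v} : Finset V) := by rw [← h]; exact mem_insert_self _ _
  have hd : y ∈ ({u, v} : Finset V) := by
    rw [← h]; exact mem_insert_of_mem (mem_singleton_self _)
  rw [mem_insert, mem_singleton] at hs hd
  rcases hs with hs | hs <;> rcases hd with hd | hd
  · exact absurd (hs.trans hd.symm) hne
  · exact Or.inl ⟨hs, hd⟩
  · exact Or.inr ⟨hs, hd⟩
  · exact absurd (hs.trans hd.symm) hne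

theorem one_edge (hNP : NoPar src dst) (S : Finset V) :
    (univ.filter (fun e => e ∈ ES src dst T ∧ S = {src e, dst e})).card ≤ 1 := by
  rw [card_le_one]
  intro e he e' he'
  obtain ⟨_, h1, h2⟩ := mem_filter.1 he
  obtain ⟨_, h3, h4⟩ := mem_filter.1 he'
  have hne := (mem_ES.1 h1).1
  have h5 := pair_edge (mem_ES.1 h3).1 (h4.symm.trans h2)
  exact hNP e e' (src e) (dst e) hne (Or.inl ⟨rfl, rfl⟩) h5

/-- the support of the image is not larger -/
theorem psi_card (hR : MinRep src dst T (Adj src dst) h a b F L)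
    (tri : ∀ u v w, Adj src dst u v → Adj src dst v w → Adj src dst w u → False)
    (hNP : NoPar src dst) {z : D → ZMod 2} (hz : z ∈ ZF a b F) :
    (univ.filter (fun e => psi src dst T a b L z e ≠ 0)).card ≤
      (univ.filter (fun d => z d ≠ 0)).card := by
  classical
  have key := card_mul_le_card_mul (s := univ.filter (fun e => psi src dst T a b L z e ≠ 0))
    (t := univ.filter (fun d => z d ≠ 0)) (m := 2) (n := 2)
    (fun (e : E) (d : D) => e ∈ ES src dst T ∧
      (L (a d) = {src e, dst e} ∨ L (b d) = {src e, dst e})) ?_ ?_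
  · omega
  · intro e he
    have hpe := (mem_filter.1 he).2
    have heES : e ∈ ES src dst T := by
      by_contra h
      exact hpe (if_neg h)
    have hne := (mem_ES.1 heES).1
    obtain ⟨x, hx, hx0⟩ : ∃ x ∈ univ.filter (fun x => L x = {src e, dst e}),
        bd2 a b (zu a b L z (src e)) x ≠ 0 := by
      by_contra hno
      push Not at hno
      apply hpe
      unfold psi
      rw [if_pos heES]
      exact sum_eq_zero hno
    have hLx := (mem_filter.1 hx).2
    have hx1 : bd2 a b (zu a b L z (dst e)) x ≠ 0 := by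
      rw [← par_eq hR tri hz hne hLx]
      exact hx0
    obtain ⟨d1, hd1, hd1x⟩ := bd_ne hx0
    obtain ⟨d2, hd2, hd2x⟩ := bd_ne hx1
    obtain ⟨z1, p1, q1⟩ := zu_ne hd1
    obtain ⟨z2, p2, q2⟩ := zu_ne hd2
    have hF1 : d1 ∈ F := by
      by_contra h
      exact z1 (hz.1 d1 h)
    have hd12 : d1 ≠ d2 := by
      rintro rfl
      exact hne (uniq hR tri hF1 p1 q1 p2 q2)
    have hsub : {d1, d2} ⊆ bipartiteAbove (fun (e : E) (d : D) => e ∈ ES src dst T ∧
      (L (a d) = {src e, dst e} ∨ L (b d) = {src e, dst e})) (univ.filter (fun d => z d ≠ 0)) e := by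
      intro d hd
      rw [mem_bipartiteAbove]
      rcases mem_insert.1 hd with rfl | hd
      · refine ⟨mem_filter.2 ⟨mem_univ _, z1⟩, heES, ?_⟩
        rcases hd1x with h | h
        · left; rw [h, hLx]
        · right; rw [h, hLx]
      · rw [mem_singleton.1 hd]
        refine ⟨mem_filter.2 ⟨mem_univ _, z2⟩, heES, ?_⟩
        rcases hd2x with h | h
        · left; rw [h, hLx]
        · right; rw [h, hLx]
    have := card_le_card hsub
    rwa [card_pair hd12] at this
  · intro d hd
    have hsub : bipartiteBelow (fun (e : E) (d : D) => e ∈ ES src dst T ∧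
      (L (a d) = {src e, dst e} ∨ L (b d) = {src e, dst e}))
      (univ.filter (fun e => psi src dst T a b L z e ≠ 0)) d ⊆
      univ.filter (fun e => e ∈ ES src dst T ∧ L (a d) = {src e, dst e}) ∪
        univ.filter (fun e => e ∈ ES src dst T ∧ L (b d) = {src e, dst e}) := by
      intro e he
      rw [mem_bipartiteBelow] at he
      obtain ⟨_, h1, h2⟩ := he
      rw [mem_union]
      rcases h2 with h2 | h2
      · exact Or.inl (mem_filter.2 ⟨mem_univ _, h1, h2⟩)
      · exact Or.inr (mem_filter.2 ⟨mem_univ _, h1, h2⟩)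
    refine (card_le_card hsub).trans ((card_union_le _ _).trans ?_)
    have h1 := one_edge (T := T) hNP (L (a d))
    have h2 := one_edge (T := T) hNP (L (b d))
    omega

/-- **Main lemma**: on a short element of the cycle space of the host graph there are two vertices
with the same labels. -/
theorem short (hR : MinRep src dst T (Adj src dst) h a b F L)
    (tri : ∀ u v w, Adj src dst u v → Adj src dst v w → Adj src dst w u → False)
    (hNP : NoPar src dst) {g : ℕ}
    (hg : ∀ x ∈ ZF src dst (ES src dst T), x ≠ 0 → g ≤ (univ.filter (fun e => x e ≠ 0)).card)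
    {z : D → ZMod 2} (hz : z ∈ ZF a b F) (hz0 : z ≠ 0)
    (hs : (univ.filter (fun d => z d ≠ 0)).card < g) :
    ∃ x y P, x ≠ y ∧ L x = L y ∧ (L x).Nonempty ∧ Chn a b F x y P ∧ ∀ e, P e ≠ 0 → z e ≠ 0 := by
  classical
  obtain ⟨d0, hd0⟩ : ∃ e, z e ≠ 0 := by
    by_contra hno
    push Not at hno
    exact hz0 (funext hno)
  have hzF : ∀ e, z e ≠ 0 → e ∈ F := by
    intro e he
    by_contra h
    exact he (hz.1 e h)
  set x0 := a d0 with hx0
  -- the component of `x0`
  set z' : D → ZMod 2 := fun e => if Rch a b z x0 (a e) then z e else 0 with hz'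
  have hcr : ∀ e, z e ≠ 0 → (Rch a b z x0 (a e) ↔ Rch a b z x0 (b e)) := fun e he =>
    ⟨fun h => h.step he (Or.inl ⟨rfl, rfl⟩), fun h => h.step he (Or.inr ⟨rfl, rfl⟩)⟩
  have hz'ne : ∀ e, z' e ≠ 0 → z e ≠ 0 ∧ Rch a b z x0 (a e) ∧ Rch a b z x0 (b e) := by
    intro e he
    rw [hz'] at he
    beta_reduce at he
    split_ifs at he with h1
    · exact ⟨he, h1, (hcr e he).1 h1⟩
    · exact absurd rfl he
  have hz'0 : z' d0 ≠ 0 := by
    rw [hz']
    beta_reduce
    rw [if_pos (Rch.refl a b z x0)]
    exact hd0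
  have hz'Z : z' ∈ ZF a b F := by
    refine ⟨fun e he => ?_, fun v => ?_⟩
    · by_contra h
      exact he (hzF e (hz'ne e h).1)
    · have h1 : bd2 a b z' v = if Rch a b z x0 v then bd2 a b z v else 0 := by
        by_cases hv : Rch a b z x0 v
        · rw [if_pos hv]
          unfold bd2
          refine sum_congr rfl fun e _ => ?_
          by_cases hze : z e = 0
          · have : z' e = 0 := by
              by_contra h
              exact (hz'ne e h).1 hze
            rw [this, hze]
          · have hze' : (a e = v ∨ b e = v) → z' e = z e := by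
              intro h
              rw [hz']
              beta_reduce
              rw [if_pos]
              rcases h with h | h
              · rw [h]; exact hv
              · rw [hcr e hze, h]; exact hv
            by_cases h1 : a e = v
            · rw [hze' (Or.inl h1)]
            · by_cases h2 : b e = v
              · rw [hze' (Or.inr h2)]
              · simp [h1, h2]
        · rw [if_neg hv]
          unfold bd2
          refine sum_eq_zero fun e _ => ?_
          by_cases hze : z' e = 0
          · simp [hze]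
          · obtain ⟨_, h2, h3⟩ := hz'ne e hze
            have h4 : a e ≠ v := fun h => hv (h ▸ h2)
            have h5 : b e ≠ v := fun h => hv (h ▸ h3)
            rw [if_neg h4, if_neg h5, add_zero]
      rw [h1, hz.2 v, ite_self]
  have hcard : (univ.filter (fun e => psi src dst T a b L z' e ≠ 0)).card < g := by
    refine (psi_card hR tri hNP hz'Z).trans_lt (lt_of_le_of_lt (card_le_card ?_) hs)
    intro e he
    exact mem_filter.2 ⟨mem_univ _, (hz'ne e (mem_filter.1 he).2).1⟩
  have hpsi : psi src dst T a b L z' = 0 := by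
    by_contra hne
    have := hg _ (psi_mem hR tri hNP hz'Z) hne
    omega
  -- the region of `d0`
  obtain ⟨u, v0, w0, e1, e2, _, _, _⟩ := ends hR tri (hzF d0 hd0)
  have hu1 : u ∈ L (a d0) := by rw [e1]; exact mem_insert_self _ _
  have hu2 : u ∈ L (b d0) := by rw [e2]; exact mem_insert_self _ _
  have hzu : zu a b L z' u ≠ 0 := by
    intro h
    have h1 := congrFun h d0
    unfold zu at h1
    rw [if_pos ⟨hu1, hu2⟩] at h1
    exact hz'0 h1
  obtain ⟨x1, hx1⟩ : ∃ x, bd2 a b (zu a b L z' u) x ≠ 0 := by
    by_contra hno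
    push Not at hno
    refine hzu (forest hR tri u _ (fun e he => ?_) hno)
    obtain ⟨h1, h2⟩ := zu_ne he
    exact ⟨hzF e (hz'ne e h1).1, h2⟩
  obtain ⟨v, huv, hLx1, hadj⟩ := lab hR tri hz'Z hx1
  obtain ⟨_, e, he⟩ := hadj
  have huT : u ∉ T := hR.out x1 u (by rw [hLx1]; exact mem_insert_self _ _)
  have hvT : v ∉ T := hR.out x1 v (by
    rw [hLx1]; exact mem_insert_of_mem (mem_singleton_self _))
  have heES : e ∈ ES src dst T := by
    rw [mem_ES]
    rcases he with ⟨h1, h2⟩ | ⟨h1, h2⟩
    · rw [h1, h2]; exact ⟨huv, huT, hvT⟩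
    · rw [h1, h2]; exact ⟨huv.symm, hvT, huT⟩
  have hsum : ∑ x ∈ univ.filter (fun x => L x = L x1), bd2 a b (zu a b L z' u) x = 0 := by
    rcases he with ⟨h1, h2⟩ | ⟨h1, h2⟩
    · have h3 := congrFun hpsi e
      unfold psi at h3
      rw [if_pos heES, h1, h2, ← hLx1] at h3
      exact h3
    · have h3 := congrFun hpsi e
      rw [psi_dst hR tri hz'Z heES, h1, h2, pair_comm, ← hLx1] at h3
      exact h3
  obtain ⟨x2, hx2m, hx2⟩ : ∃ x ∈ (univ.filter (fun x => L x = L x1)).erase x1,
      bd2 a b (zu a b L z' u) x ≠ 0 := by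
    by_contra hno
    push Not at hno
    have hmem : x1 ∈ univ.filter (fun x => L x = L x1) := mem_filter.2 ⟨mem_univ _, rfl⟩
    rw [← add_sum_erase _ _ hmem, sum_eq_zero hno, add_zero] at hsum
    exact hx1 hsum
  obtain ⟨hx21, hx2f⟩ := mem_erase.1 hx2m
  have hL := (mem_filter.1 hx2f).2
  have hr : ∀ x, bd2 a b (zu a b L z' u) x ≠ 0 → Rch a b z x0 x := by
    intro x hx
    obtain ⟨d, hd, hdx⟩ := bd_ne hx
    obtain ⟨_, h1, h2⟩ := hz'ne d (zu_ne hd).1
    rcases hdx with h | h
    · rw [← h]; exact h1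
    · rw [← h]; exact h2
  obtain ⟨P1, hP1, hP1'⟩ := hr x1 hx1
  obtain ⟨P2, hP2, hP2'⟩ := hr x2 hx2
  have hP : ∀ e, (P1 + P2) e ≠ 0 → z e ≠ 0 := by
    intro e he
    by_cases h1 : P1 e = 0
    · rw [Pi.add_apply, h1, zero_add] at he
      exact hP2 e he
    · exact hP1 e h1
  refine ⟨x1, x2, P1 + P2, hx21.symm, hL.symm, ?_, ⟨fun e he => ?_, fun w => ?_⟩, hP⟩
  · rw [hLx1]; exact ⟨u, mem_insert_self _ _⟩
  · by_contra h
    exact he (hzF e (hP e h))
  · rw [bd2_add, hP1', hP2']
    have := self_add (if w = x0 then (1 : ZMod 2) else 0)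
    linear_combination this

end Pool.Agent.J4.H76.SG
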